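import Pool.Agent.H966.N3.Stm
import Pool.Graph.R_pool_sql_team_seeded_3dad9d7b.NH97.WI2

/-!
Task N3-C (helper363): the two algebraic generating functions `S_c1`, `S_c2`.
-/

set_option autoImplicit false

namespace Pool.Agent.H966.N3

namespace C

open Finset Filter Topology
open Pool.Agent.NH97.WI (Co hcd ode derF derG sumw sumG T ca cb shiftA shiftB T_add T_sub T_smul
  wp wp_eq wp_nonneg wp_le wp_zero wp_one wp_rec rf_pos rf_succ)

/-- the solution of the differential equation -/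
theorem main0x {w : ℕ → ℝ} {u v a d s : ℝ} (h : Co w u) (hv0 : 0 ≤ v) (hvu : v ≤ u)
    (huv : u + v = 2 * a) (huvd : u * v = d^2)
    (w0 : w 0 = 1) (w1 : w 1 = a - s * d)
    (hrec : ∀ m : ℕ, ((m:ℝ)+2) * w (m+2) - a * (2*m+3) * w (m+1) + d^2 * (m+1) * w m
      - s^2 * d^2 * (w m / (m+1)) = 0) :
    0 < 1 - 2*a + d^2 ∧ 0 < (1 - d + Real.sqrt (1 - 2*a + d^2))/2 ∧
    0 < (1 + d + Real.sqrt (1 - 2*a + d^2))/2 ∧
    HasSum w (Real.exp (s * (Real.log ((1 - d + Real.sqrt (1 - 2*a + d^2))/2) -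
      Real.log ((1 + d + Real.sqrt (1 - 2*a + d^2))/2))) / Real.sqrt (1 - 2*a + d^2)) ∧
    HasSum (fun m : ℕ => s * d * (w m / ((m:ℝ)+1)))
      (1 - Real.exp (s * (Real.log ((1 - d + Real.sqrt (1 - 2*a + d^2))/2) -
      Real.log ((1 + d + Real.sqrt (1 - 2*a + d^2))/2)))) := by
  have hu0 := h.u0
  have hu1 := h.u1
  -- radius
  obtain ⟨r, hr, hru⟩ : ∃ r : ℝ, 1 < r ∧ r * u < 1 := by
    refine ⟨2 / (1 + u), ?_, ?_⟩
    · rw [lt_div_iff₀ (by linarith)]; linarith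
    · rw [div_mul_eq_mul_div, div_lt_one (by linarith)]; linarith
  have hd : |d| < 1 := by
    rw [← sq_lt_one_iff_abs_lt_one, ← huvd]
    nlinarith
  have hd1 := (abs_lt.mp hd).1
  have hd2 := (abs_lt.mp hd).2
  have hQ : ∀ t : ℝ, 0 ≤ t → t ≤ 1 → 0 < 1 - 2*a*t + d^2*t^2 := by
    intro t h0 h1
    have e : 1 - 2*a*t + d^2*t^2 = (1 - u*t) * (1 - v*t) := by
      rw [← huv, ← huvd]; ring
    rw [e]
    apply mul_pos
    · nlinarith
    · nlinarith
  set Q : ℝ → ℝ := fun t => 1 - 2*a*t + d^2*t^2 with hQd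
  set R : ℝ → ℝ := fun t => Real.sqrt (Q t) with hRd
  have hR : ∀ t : ℝ, 0 ≤ t → t ≤ 1 → 0 < R t := fun t h0 h1 => Real.sqrt_pos.mpr (hQ t h0 h1)
  have hRR : ∀ t : ℝ, 0 ≤ t → t ≤ 1 → R t * R t = Q t := fun t h0 h1 =>
    Real.mul_self_sqrt (hQ t h0 h1).le
  have hdR : ∀ t : ℝ, 0 ≤ t → t ≤ 1 → HasDerivAt R ((-a + d^2*t) / R t) t := by
    intro t h0 h1
    have hq : HasDerivAt Q (2*(-a + d^2*t)) t := by
      have := ((hasDerivAt_const t (1:ℝ)).sub ((hasDerivAt_id t).const_mul (2*a))).add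
        ((hasDerivAt_pow 2 t).const_mul (d^2))
      refine hcd this ?_
      simp
      ring
    have := hq.sqrt (hQ t h0 h1).ne'
    refine hcd this ?_
    have hp := hR t h0 h1
    show _ = 2 * (-a + d^2*t) / (2 * R t)
    field_simp
  set X : ℝ → ℝ := fun t => (1 - d*t + R t)/2 with hXd
  set Y : ℝ → ℝ := fun t => (1 + d*t + R t)/2 with hYd
  have hX : ∀ t : ℝ, 0 ≤ t → t ≤ 1 → 0 < X t := by
    intro t h0 h1
    have := hR t h0 h1
    show 0 < (1 - d*t + R t)/2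
    nlinarith
  have hY : ∀ t : ℝ, 0 ≤ t → t ≤ 1 → 0 < Y t := by
    intro t h0 h1
    have := hR t h0 h1
    show 0 < (1 + d*t + R t)/2
    nlinarith
  set g : ℝ → ℝ := fun t => Real.exp (s * (Real.log (X t) - Real.log (Y t))) with hgd
  have hgpos : ∀ t, 0 < g t := fun t => Real.exp_pos _
  have hdg : ∀ t : ℝ, 0 ≤ t → t ≤ 1 → HasDerivAt g (-(s*d/R t) * g t) t := by
    intro t h0 h1
    have rp := hR t h0 h1
    have xp := hX t h0 h1
    have yp := hY t h0 h1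
    have dX : HasDerivAt X ((-d + (-a + d^2*t)/R t)/2) t := by
      have := (((hasDerivAt_const t (1:ℝ)).sub ((hasDerivAt_id t).const_mul d)).add
        (hdR t h0 h1)).div_const 2
      refine hcd this ?_
      simp
    have dY : HasDerivAt Y ((d + (-a + d^2*t)/R t)/2) t := by
      have := (((hasDerivAt_const t (1:ℝ)).add ((hasDerivAt_id t).const_mul d)).add
        (hdR t h0 h1)).div_const 2
      refine hcd this ?_
      simp
    have dL := (((dX.log xp.ne').sub (dY.log yp.ne')).const_mul s).exp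
    refine hcd dL ?_
    have hxy : X t * Y t = (1 + R t - a*t)/2 := by
      have := hRR t h0 h1
      show (1 - d*t + R t)/2 * ((1 + d*t + R t)/2) = _
      have e : R t * R t = 1 - 2*a*t + d^2*t^2 := this
      linear_combination (1/4) * e
    have e2 : (-d + (-a + d^2*t)/R t)/2 / X t - (d + (-a + d^2*t)/R t)/2 / Y t = -(d / R t) := by
      have e : R t * R t = 1 - 2*a*t + d^2*t^2 := hRR t h0 h1
      rw [div_sub_div _ _ xp.ne' yp.ne', hxy]
      have hp : 0 < (1 + R t - a*t)/2 := by rw [← hxy]; positivity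
      rw [div_eq_iff hp.ne']
      show (-d + (-a + d^2*t)/R t)/2 * ((1 + d*t + R t)/2) -
        (1 - d*t + R t)/2 * ((d + (-a + d^2*t)/R t)/2) = _
      field_simp
      linear_combination (-2*d) * e
    show -(s*d/R t) * g t = Real.exp (s * (Real.log (X t) - Real.log (Y t))) * (s * _)
    rw [e2]
    show -(s*d/R t) * g t = g t * _
    ring
  -- the series
  set f : ℝ → ℝ := fun t => ∑' m : ℕ, w m * t^m with hfd
  set V : ℝ → ℝ := fun t => 1 - s * d * ∑' m : ℕ, w m / ((m:ℝ)+1) * t^(m+1) with hVd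
  have habs : ∀ t : ℝ, 0 ≤ t → t ≤ 1 → |t| < r := by
    intro t h0 h1
    rw [abs_of_nonneg h0]; linarith
  have hdV : ∀ t : ℝ, 0 ≤ t → t ≤ 1 → HasDerivAt V (-(s*d) * f t) t := by
    intro t h0 h1
    have := ((derG h hr hru (habs t h0 h1)).const_mul (s*d)).const_sub 1
    refine hcd this ?_
    show -(s*d) * f t = -(s*d*f t)
    ring
  set p : ℝ → ℝ := fun t => R t * f t with hpd
  have hdp : ∀ t : ℝ, 0 ≤ t → t ≤ 1 → HasDerivAt p (-(s*d/R t) * V t) t := by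
    intro t h0 h1
    have rp := hR t h0 h1
    have := (hdR t h0 h1).mul (derF h hr hru (habs t h0 h1))
    refine hcd this ?_
    have ho := ode h hr hru w0 w1 hrec (habs t h0 h1)
    have e : R t * R t = 1 - 2*a*t + d^2*t^2 := hRR t h0 h1
    set f1 := ∑' m : ℕ, ((m:ℝ)+1) * w (m+1) * t^m
    show -(s*d/R t) * V t = (-a + d^2*t)/R t * f t + R t * f1
    have ho' : (1 - 2*a*t + d^2*t^2) * f1 + (-a + d^2*t) * f t + s * d * V t = 0 := ho
    field_simp
    rw [← e] at ho'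
    linear_combination (-1) * ho'
  have hdV' : ∀ t : ℝ, 0 ≤ t → t ≤ 1 → HasDerivAt V (-(s*d/R t) * p t) t := by
    intro t h0 h1
    have rp := hR t h0 h1
    refine hcd (hdV t h0 h1) ?_
    show -(s*d/R t) * (R t * f t) = _
    field_simp
  -- constants of motion
  have c1 : ∀ t ∈ Set.Icc (0:ℝ) 1, (fun t => (p t - V t) * g t) t = (fun t => (p t - V t) * g t) 0 := by
    have hder : ∀ t : ℝ, 0 ≤ t → t ≤ 1 → HasDerivAt (fun t => (p t - V t) * g t) 0 t := by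
      intro t h0 h1
      have := ((hdp t h0 h1).sub (hdV' t h0 h1)).mul (hdg t h0 h1)
      refine hcd this ?_
      show (0:ℝ) = (-(s*d/R t) * V t - -(s*d/R t) * p t) * g t +
        (p t - V t) * (-(s*d/R t) * g t)
      ring
    apply constant_of_has_deriv_right_zero
    · intro t ht
      exact (hder t ht.1 ht.2).continuousAt.continuousWithinAt
    · intro t ht
      exact (hder t ht.1 ht.2.le).hasDerivWithinAt
  have c2 : ∀ t ∈ Set.Icc (0:ℝ) 1, (fun t => (p t + V t) / g t) t = (fun t => (p t + V t) / g t) 0 := by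
    have hder : ∀ t : ℝ, 0 ≤ t → t ≤ 1 → HasDerivAt (fun t => (p t + V t) / g t) 0 t := by
      intro t h0 h1
      have := ((hdp t h0 h1).add (hdV' t h0 h1)).div (hdg t h0 h1) (hgpos t).ne'
      refine hcd this ?_
      show (0:ℝ) = ((-(s*d/R t) * V t + -(s*d/R t) * p t) * g t -
        (p t + V t) * (-(s*d/R t) * g t)) / g t ^ 2
      ring
    apply constant_of_has_deriv_right_zero
    · intro t ht
      exact (hder t ht.1 ht.2).continuousAt.continuousWithinAt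
    · intro t ht
      exact (hder t ht.1 ht.2.le).hasDerivWithinAt
  have R0 : R 0 = 1 := by
    show Real.sqrt (1 - 2*a*0 + d^2*0^2) = 1
    simp
  have f0 : f 0 = 1 := by
    show ∑' m : ℕ, w m * (0:ℝ)^m = 1
    rw [tsum_eq_single 0]
    · simp [w0]
    · intro m hm
      simp [hm]
  have V0 : V 0 = 1 := by
    show 1 - s * d * ∑' m : ℕ, w m / ((m:ℝ)+1) * (0:ℝ)^(m+1) = 1
    simp
  have g0 : g 0 = 1 := by
    show Real.exp (s * (Real.log ((1 - d*0 + R 0)/2) - Real.log ((1 + d*0 + R 0)/2))) = 1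
    rw [R0]
    norm_num
  have p0 : p 0 = 1 := by
    show R 0 * f 0 = 1
    rw [R0, f0, one_mul]
  have k1 := c1 1 ⟨zero_le_one, le_refl _⟩
  have k2 := c2 1 ⟨zero_le_one, le_refl _⟩
  simp only [p0, V0, g0] at k1 k2
  have gp := hgpos 1
  have k3 : p 1 = V 1 := by
    have : (p 1 - V 1) * g 1 = 0 := by rw [k1]; ring
    rcases mul_eq_zero.mp this with h | h
    · linarith
    · exact absurd h gp.ne'
  have k4 : p 1 = g 1 := by
    rw [div_eq_iff gp.ne'] at k2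
    rw [← k3] at k2
    linarith
  have hR1 : R 1 = Real.sqrt (1 - 2*a + d^2) := by
    show Real.sqrt (1 - 2*a*1 + d^2*1^2) = _
    congr 1
    ring
  have rp := hR 1 zero_le_one (le_refl _)
  refine ⟨?_, ?_, ?_, ?_, ?_⟩
  · have := hQ 1 zero_le_one (le_refl _)
    linarith
  · rw [← hR1]
    have := hX 1 zero_le_one (le_refl _)
    have e : X 1 = (1 - d*1 + R 1)/2 := rfl
    rw [e] at this
    linarith
  · rw [← hR1]
    have := hY 1 zero_le_one (le_refl _)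
    have e : Y 1 = (1 + d*1 + R 1)/2 := rfl
    rw [e] at this
    linarith
  · rw [← hR1]
    have hs : HasSum (fun m => w m * (1:ℝ)^m) (f 1) :=
      (sumw h hr hru (habs 1 zero_le_one (le_refl _)).le).hasSum
    simp only [one_pow, mul_one] at hs
    have e1 : f 1 = g 1 / R 1 := by
      rw [eq_div_iff rp.ne', ← k4]
      show f 1 * R 1 = R 1 * f 1
      ring
    rw [e1] at hs
    have e2 : g 1 = Real.exp (s * (Real.log ((1 - d + R 1)/2) - Real.log ((1 + d + R 1)/2))) := by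
      show Real.exp (s * (Real.log ((1 - d*1 + R 1)/2) - Real.log ((1 + d*1 + R 1)/2))) = _
      rw [mul_one]
    rw [e2] at hs
    exact hs
  · rw [← hR1]
    have hs : HasSum (fun m : ℕ => w m / ((m:ℝ)+1) * (1:ℝ)^(m+1))
        (∑' m : ℕ, w m / ((m:ℝ)+1) * (1:ℝ)^(m+1)) :=
      (sumG h hr hru (habs 1 zero_le_one (le_refl _)).le).hasSum
    have e0 : V 1 = 1 - s * d * ∑' m : ℕ, w m / ((m:ℝ)+1) * (1:ℝ)^(m+1) := rfl
    have e2 : g 1 = Real.exp (s * (Real.log ((1 - d + R 1)/2) - Real.log ((1 + d + R 1)/2))) := by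
      show Real.exp (s * (Real.log ((1 - d*1 + R 1)/2) - Real.log ((1 + d*1 + R 1)/2))) = _
      rw [mul_one]
    rw [← e2, ← k4, k3, e0]
    have e3 : 1 - (1 - s * d * ∑' m : ℕ, w m / ((m:ℝ)+1) * (1:ℝ)^(m+1)) =
        s * d * ∑' m : ℕ, w m / ((m:ℝ)+1) * (1:ℝ)^(m+1) := by ring
    rw [e3]
    refine (hs.mul_left (s * d)).congr_fun fun m => ?_
    rw [one_pow, mul_one]


/-- the two sums -/
theorem mainx (A B : ℝ) (hA : 0 < A) (hB : 0 < B) (hAB : Real.sqrt A + Real.sqrt B < 1) :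
    0 < Pool.Agent.NH97.WI.x2 A B - Pool.Agent.NH97.WI.x1 A B ∧
    0 < 1 - Pool.Agent.NH97.WI.x1 A B ∧ 0 < Pool.Agent.NH97.WI.x2 A B ∧
    HasSum (wp A B) ((1 - Pool.Agent.NH97.WI.x1 A B)^((1:ℝ)/3) *
      (Pool.Agent.NH97.WI.x2 A B)^(-(1:ℝ)/3) /
        (Pool.Agent.NH97.WI.x2 A B - Pool.Agent.NH97.WI.x1 A B)) ∧
    HasSum (fun m : ℕ => 1/3 * (A - B) * (wp A B m / ((m:ℝ)+1)))
      (1 - (1 - Pool.Agent.NH97.WI.x1 A B)^((1:ℝ)/3) *
      (Pool.Agent.NH97.WI.x2 A B)^(-(1:ℝ)/3)) := by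
  have sA := Real.sqrt_pos.mpr hA
  have sB := Real.sqrt_pos.mpr hB
  have qA := Real.sq_sqrt hA.le
  have qB := Real.sq_sqrt hB.le
  have hco : Co (wp A B) ((Real.sqrt A + Real.sqrt B)^2) := by
    refine ⟨by positivity, ?_, ?_⟩
    · nlinarith
    · intro m
      rw [abs_of_nonneg (wp_nonneg hA hB m)]
      exact wp_le hA hB m
  have key := main0x (v := (Real.sqrt A - Real.sqrt B)^2) (a := A + B) (d := A - B) (s := 1/3)
    hco (by positivity) (by nlinarith [mul_pos sA sB]) (by nlinarith) (by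
      have : ((Real.sqrt A + Real.sqrt B)^2) * ((Real.sqrt A - Real.sqrt B)^2) =
        ((Real.sqrt A)^2 - (Real.sqrt B)^2)^2 := by ring
      rw [this, qA, qB]) (wp_zero A B) (wp_one A B) (wp_rec A B)
  have er : Pool.Agent.NH97.WI.rr A B = Real.sqrt (1 - 2*(A+B) + (A-B)^2) := by
    unfold Pool.Agent.NH97.WI.rr
    congr 1
    ring
  obtain ⟨h1, h2, h3, h4, h5⟩ := key
  have hrp : 0 < Pool.Agent.NH97.WI.rr A B := by
    rw [er]
    exact Real.sqrt_pos.mpr h1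
  rw [← er] at h2 h3 h4 h5
  have ex1 : 1 - Pool.Agent.NH97.WI.x1 A B = (1 - (A-B) + Pool.Agent.NH97.WI.rr A B)/2 := by
    unfold Pool.Agent.NH97.WI.x1; ring
  have ex2 : Pool.Agent.NH97.WI.x2 A B = (1 + (A-B) + Pool.Agent.NH97.WI.rr A B)/2 := by
    unfold Pool.Agent.NH97.WI.x2; ring
  have ex3 : Pool.Agent.NH97.WI.x2 A B - Pool.Agent.NH97.WI.x1 A B =
      Pool.Agent.NH97.WI.rr A B := by
    unfold Pool.Agent.NH97.WI.x1 Pool.Agent.NH97.WI.x2; ring
  rw [ex3, ex1, ex2, Real.rpow_def_of_pos h2, Real.rpow_def_of_pos h3, ← Real.exp_add]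
  have e : Real.log ((1 - (A-B) + Pool.Agent.NH97.WI.rr A B)/2) * ((1:ℝ)/3) +
      Real.log ((1 + (A-B) + Pool.Agent.NH97.WI.rr A B)/2) * (-(1:ℝ)/3) =
      1/3 * (Real.log ((1 - (A-B) + Pool.Agent.NH97.WI.rr A B)/2) -
        Real.log ((1 + (A-B) + Pool.Agent.NH97.WI.rr A B)/2)) := by ring
  rw [e]
  exact ⟨hrp, h2, h3, h4, h5⟩

theorem rf_third (l : ℕ) : Pool.Agent.NH97.WI.rf (1/3) l * (3 * l + 1) =
    Pool.Agent.NH97.WI.rf (4/3) l := by
  induction l with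
  | zero => simp [Pool.Agent.NH97.WI.rf]
  | succ l ih =>
    rw [rf_succ, rf_succ, ← ih]
    push_cast
    ring

theorem rf_third_succ (m : ℕ) : Pool.Agent.NH97.WI.rf (1/3) (m+1) =
    1/3 * Pool.Agent.NH97.WI.rf (4/3) m := by
  rw [rf_succ, ← rf_third]
  ring

theorem c1_eq (A B : ℝ) (m : ℕ) : c1 A B m = Pool.Agent.NH97.WI.rf (1/3) m *
    Pool.Agent.NH97.WI.rf (2/3) m * T A B m (fun _ l => 3 * l + 1) := by
  unfold c1 T
  rw [Finset.Nat.sum_antidiagonal_eq_sum_range_succ_mk, Finset.mul_sum]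
  apply Finset.sum_congr rfl
  intro i _
  change Pool.Agent.NH97.WI.rf (1/3) m * Pool.Agent.NH97.WI.rf (2/3) m /
    (Pool.Agent.NH97.WI.rf (2/3) i * (Nat.factorial i : ℝ) *
      (Pool.Agent.NH97.WI.rf (1/3) (m-i) * (Nat.factorial (m-i) : ℝ))) * B^i * A^(m-i) =
    Pool.Agent.NH97.WI.rf (1/3) m * Pool.Agent.NH97.WI.rf (2/3) m *
      ((3 * ((m - i : ℕ) : ℝ) + 1) *
        (B^i / (Pool.Agent.NH97.WI.rf (2/3) i * (Nat.factorial i : ℝ)) *
          (A^(m-i) / (Pool.Agent.NH97.WI.rf (4/3) (m-i) * (Nat.factorial (m-i) : ℝ)))))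
  have h1' : 0 < Pool.Agent.NH97.WI.rf (1/3) (m-i) := rf_pos (s := 1/3) (by norm_num) (m-i)
  have h2 : 0 < Pool.Agent.NH97.WI.rf (2/3) i := rf_pos (s := 2/3) (by norm_num) i
  have h3 : (0:ℝ) < (Nat.factorial i : ℝ) := by positivity
  have h4 : (0:ℝ) < (Nat.factorial (m-i) : ℝ) := by positivity
  rw [← rf_third (m-i)]
  have h6 : (0:ℝ) < 3 * ((m - i : ℕ) : ℝ) + 1 := by positivity
  field_simp

theorem c2_eq (A B : ℝ) (m : ℕ) : c2 A B m = Pool.Agent.NH97.WI.rf (1/3) m *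
    Pool.Agent.NH97.WI.rf (2/3) m * T B A m (fun i _ => i) := by
  unfold c2 T
  rw [← Finset.Nat.sum_antidiagonal_swap, Finset.Nat.sum_antidiagonal_eq_sum_range_succ_mk,
    Finset.mul_sum]
  apply Finset.sum_congr rfl
  intro i _
  change ((m - i : ℕ) : ℝ) * (Pool.Agent.NH97.WI.rf (1/3) m * Pool.Agent.NH97.WI.rf (2/3) m /
    (Pool.Agent.NH97.WI.rf (4/3) i * (Nat.factorial i : ℝ) *
      (Pool.Agent.NH97.WI.rf (2/3) (m-i) * (Nat.factorial (m-i) : ℝ)))) * B^i * A^(m-i) =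
    Pool.Agent.NH97.WI.rf (1/3) m * Pool.Agent.NH97.WI.rf (2/3) m *
      (((m - i : ℕ) : ℝ) *
        (A^(m-i) / (Pool.Agent.NH97.WI.rf (2/3) (m-i) * (Nat.factorial (m-i) : ℝ)) *
          (B^i / (Pool.Agent.NH97.WI.rf (4/3) i * (Nat.factorial i : ℝ)))))
  have h1' : 0 < Pool.Agent.NH97.WI.rf (2/3) (m-i) := rf_pos (s := 2/3) (by norm_num) (m-i)
  have h2 : 0 < Pool.Agent.NH97.WI.rf (4/3) i := rf_pos (s := 4/3) (by norm_num) i
  have h3 : (0:ℝ) < (Nat.factorial i : ℝ) := by positivity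
  have h4 : (0:ℝ) < (Nat.factorial (m-i) : ℝ) := by positivity
  field_simp

/-- the shift -/
theorem shiftAB (A B : ℝ) (m : ℕ) : (A - B) * T A B m (fun _ _ => 1) =
    T A B (m+1) (fun i l => l * (l + 1/3) - i * (i - 1/3)) := by
  rw [sub_mul, shiftA, shiftB, T_sub]
  unfold T
  apply Finset.sum_congr rfl
  intro p _
  ring

theorem c1_succ (A B : ℝ) (m : ℕ) : c1 A B (m+1) =
    1/2 * (wp A B (m+1) + (A - B) * wp A B m - 1/3 * (A - B) * (wp A B m / ((m:ℝ)+1))) := by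
  have hm : (m:ℝ) + 1 ≠ 0 := by positivity
  rw [c1_eq, wp_eq, wp_eq, rf_third_succ, rf_succ, rf_succ (4/3)]
  have e2 := shiftAB A B m
  have e6 : T A B (m+1) (fun _ l => 1/3 * (2/3 + m) * (3 * l + 1)) =
      T A B (m+1) (fun i l => 1/2 * ((4/3 + m) * (2/3 + m)) * 1 +
        1/2 * (1 - 1/3 * (1 / ((m:ℝ)+1))) * (l * (l + 1/3) - i * (i - 1/3))) := by
    unfold T
    apply Finset.sum_congr rfl
    rintro ⟨i, l⟩ hp
    have h1 : i + l = m + 1 := by simpa using hp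
    have h2 : (i:ℝ) + l = m + 1 := by exact_mod_cast h1
    have h3 : (i : ℝ) = m + 1 - l := by linarith
    simp only
    have h4 : (l:ℝ) * (l + 1/3) - i * (i - 1/3) = ((m:ℝ) + 1) * (l - i + 1/3) := by
      rw [h3]; ring
    have h5 : 1/2 * (1 - 1/3 * (1 / ((m:ℝ)+1))) * (((m:ℝ) + 1) * (l - i + 1/3)) =
        1/2 * ((m:ℝ) + 2/3) * (l - i + 1/3) := by
      field_simp
      ring
    rw [h4, h5, h3]
    ring
  rw [← T_add, ← T_smul, ← T_smul, ← T_smul, ← e2] at e6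
  have e7 : wp A B m = Pool.Agent.NH97.WI.rf (4/3) m * Pool.Agent.NH97.WI.rf (2/3) m *
      T A B m (fun _ _ => 1) := wp_eq A B m
  field_simp at e6 ⊢
  linear_combination (Pool.Agent.NH97.WI.rf (4/3) m * Pool.Agent.NH97.WI.rf (2/3) m) * e6

theorem c2_succ (A B : ℝ) (m : ℕ) : c2 A B (m+1) =
    1/6 * (wp B A (m+1) + (A - B) * wp B A m + 1/3 * (B - A) * (wp B A m / ((m:ℝ)+1))) := by
  have hm : (m:ℝ) + 1 ≠ 0 := by positivity
  rw [c2_eq, wp_eq, wp_eq, rf_third_succ, rf_succ, rf_succ (4/3)]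
  have e2 := shiftAB B A m
  have e6 : T B A (m+1) (fun i _ => 1/3 * (2/3 + m) * i) =
      T B A (m+1) (fun i l => 1/6 * ((4/3 + m) * (2/3 + m)) * 1 +
        -(1/6) * (1 - 1/3 * (1 / ((m:ℝ)+1))) * (l * (l + 1/3) - i * (i - 1/3))) := by
    unfold T
    apply Finset.sum_congr rfl
    rintro ⟨i, l⟩ hp
    have h1 : i + l = m + 1 := by simpa using hp
    have h2 : (i:ℝ) + l = m + 1 := by exact_mod_cast h1
    have h3 : (i : ℝ) = m + 1 - l := by linarith
    simp only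
    have h4 : (l:ℝ) * (l + 1/3) - i * (i - 1/3) = ((m:ℝ) + 1) * (l - i + 1/3) := by
      rw [h3]; ring
    have h5 : -(1/6) * (1 - 1/3 * (1 / ((m:ℝ)+1))) * (((m:ℝ) + 1) * (l - i + 1/3)) =
        -(1/6) * ((m:ℝ) + 2/3) * (l - i + 1/3) := by
      field_simp
      ring
    rw [h4, h5, h3]
    ring
  rw [← T_add, ← T_smul, ← T_smul, ← T_smul, ← e2] at e6
  field_simp at e6 ⊢
  linear_combination (Pool.Agent.NH97.WI.rf (4/3) m * Pool.Agent.NH97.WI.rf (2/3) m) * e6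

theorem c1_zero (A B : ℝ) : c1 A B 0 = 1 := by
  simp [c1, Pool.Agent.NH38.Fork.rf]

theorem c2_zero (A B : ℝ) : c2 A B 0 = 0 := by
  simp [c2]

theorem x1_symm (A B : ℝ) : Pool.Agent.NH97.WI.x1 B A = 1 - Pool.Agent.NH97.WI.x2 A B := by
  have e : (1 + B - A)^2 - 4*B = (1 + A - B)^2 - 4*A := by ring
  unfold Pool.Agent.NH97.WI.x1 Pool.Agent.NH97.WI.x2 Pool.Agent.NH97.WI.rr
  rw [e]
  ring

theorem x2_symm (A B : ℝ) : Pool.Agent.NH97.WI.x2 B A = 1 - Pool.Agent.NH97.WI.x1 A B := by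
  have e : (1 + B - A)^2 - 4*B = (1 + A - B)^2 - 4*A := by ring
  unfold Pool.Agent.NH97.WI.x1 Pool.Agent.NH97.WI.x2 Pool.Agent.NH97.WI.rr
  rw [e]
  ring

theorem x_sum (A B : ℝ) : Pool.Agent.NH97.WI.x1 A B + Pool.Agent.NH97.WI.x2 A B = 1 + A - B := by
  unfold Pool.Agent.NH97.WI.x1 Pool.Agent.NH97.WI.x2
  ring

end C

open C in
theorem t_c1 : S_c1 := by
  intro A B hA hB hAB
  change HasSum (c1 A B) ((1 - Pool.Agent.NH97.WI.x1 A B)^((1:ℝ)/3) *
    (Pool.Agent.NH97.WI.x2 A B)^((2:ℝ)/3) /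
      (Pool.Agent.NH97.WI.x2 A B - Pool.Agent.NH97.WI.x1 A B))
  obtain ⟨h1, h2, h3, h4, h5⟩ := mainx A B hA hB hAB
  have hx := x_sum A B
  set X1 := Pool.Agent.NH97.WI.x1 A B with hX1
  set X2 := Pool.Agent.NH97.WI.x2 A B with hX2
  set V := (1 - X1)^((1:ℝ)/3) * X2^(-(1:ℝ)/3) with hV
  have h6 : HasSum (fun m => Pool.Agent.NH97.WI.wp A B (m+1)) (V / (X2 - X1) - 1) := by
    have h := (hasSum_nat_add_iff' 1).mpr h4
    rw [Finset.sum_range_one, Pool.Agent.NH97.WI.wp_zero] at h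
    exact h
  have h7 : HasSum (fun m => c1 A B (m+1))
      (1/2 * ((V / (X2 - X1) - 1) + (A - B) * (V / (X2 - X1)) - (1 - V))) := by
    refine (((h6.add (h4.mul_left (A - B))).sub h5).mul_left (1/2)).congr_fun fun m => ?_
    exact c1_succ A B m
  have hpow : X2^((2:ℝ)/3) = X2^(-(1:ℝ)/3) * X2 := by
    rw [← Real.rpow_add_one h3.ne']
    norm_num
  rw [← hasSum_nat_add_iff' 1, Finset.sum_range_one, c1_zero, hpow]
  have e : (1 - X1)^((1:ℝ)/3) * (X2^(-(1:ℝ)/3) * X2) / (X2 - X1) - 1 =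
      1/2 * ((V / (X2 - X1) - 1) + (A - B) * (V / (X2 - X1)) - (1 - V)) := by
    have hAB' : A - B = X1 + X2 - 1 := by linarith
    rw [← mul_assoc, ← hV, hAB']
    have h1' := h1.ne'
    field_simp
    ring
  rw [e]
  exact h7

open C in
theorem t_c2 : S_c2 := by
  intro A B hA hB hAB
  change HasSum (c2 A B) (1/3 * Pool.Agent.NH97.WI.x1 A B *
    (Pool.Agent.NH97.WI.x2 A B)^((1:ℝ)/3) * (1 - Pool.Agent.NH97.WI.x1 A B)^(-(1:ℝ)/3) /
      (Pool.Agent.NH97.WI.x2 A B - Pool.Agent.NH97.WI.x1 A B))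
  obtain ⟨h1, h2, h3, h4, h5⟩ := mainx B A hB hA (by rw [add_comm]; exact hAB)
  have hx := x_sum A B
  rw [x1_symm A B, x2_symm A B] at h1 h4 h5
  rw [x1_symm A B] at h2
  set X1 := Pool.Agent.NH97.WI.x1 A B with hX1
  set X2 := Pool.Agent.NH97.WI.x2 A B with hX2
  have e0 : 1 - (1 - X2) = X2 := by ring
  have e1 : 1 - X1 - (1 - X2) = X2 - X1 := by ring
  rw [e0, e1] at h4
  rw [e0] at h5 h2
  rw [e1] at h1
  set V := X2^((1:ℝ)/3) * (1 - X1)^(-(1:ℝ)/3) with hV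
  have h6 : HasSum (fun m => Pool.Agent.NH97.WI.wp B A (m+1)) (V / (X2 - X1) - 1) := by
    have h := (hasSum_nat_add_iff' 1).mpr h4
    rw [Finset.sum_range_one, Pool.Agent.NH97.WI.wp_zero] at h
    exact h
  have h7 : HasSum (fun m => c2 A B (m+1))
      (1/6 * ((V / (X2 - X1) - 1) + (A - B) * (V / (X2 - X1)) + (1 - V))) := by
    refine (((h6.add (h4.mul_left (A - B))).add h5).mul_left (1/6)).congr_fun fun m => ?_
    exact c2_succ A B m
  rw [← hasSum_nat_add_iff' 1, Finset.sum_range_one, c2_zero]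
  have e : 1/3 * X1 * X2^((1:ℝ)/3) * (1 - X1)^(-(1:ℝ)/3) / (X2 - X1) - 0 =
      1/6 * ((V / (X2 - X1) - 1) + (A - B) * (V / (X2 - X1)) + (1 - V)) := by
    have hAB' : A - B = X1 + X2 - 1 := by linarith
    rw [mul_assoc (1/3 * X1), ← hV, hAB']
    have h1' := h1.ne'
    field_simp
    ring
  rw [e]
  exact h7

end Pool.Agent.H966.N3
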