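import Pool.Agent.H966.N3.Stm
import Pool.Graph.R_pool_sql_team_seeded_3dad9d7b.NH38.Fork.R2
import Pool.Graph.R_pool_sql_team_seeded_3dad9d7b.NH38.Fork.R3

/-!
Task D: coefficients of `dv` with error term (helper662). The exact triangular system
`sum_k (dv n)_k wt k j = R j` (difference of two instances of `NG2.sv_sum`) is inverted with `R3.inv`.
-/

set_option autoImplicit false

namespace Pool.Agent.H966.N3

open Pool.Agent.NH38.Fork (x1 x2 rf cK cR sv kap)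
open Pool.Agent.H965.K3 (dv)
open Finset

namespace D

open Pool.Agent.NH38.Fork.NG2 (E Dn E_succ E_zero Dn_succ Dn_zero kap_succ kap_zero kap_pos pc rc
  wt wt_self sv_sum Dn_eq)

/-- the size of `1 / (kap (n+1) / kap (n-1) - 1)` -/
noncomputable def qq (x : ℚ) : ℚ := (9*x^2 + 3*x - 2) / (12*x + 6)

noncomputable def e (x : ℚ) (j : ℕ) : ℚ := E (x+1) j / x^(2*j)

noncomputable def d (x : ℚ) (j : ℕ) : ℚ := qq x * (E (x+1) j - E (x-1) j) / x^(2*j)

lemma e_zero (x : ℚ) : e x 0 = 1 := by simp [e, E_zero]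

lemma d_zero (x : ℚ) : d x 0 = 0 := by simp [d, E_zero]

lemma e_succ {x : ℚ} (hx : 0 < x) (j : ℕ) :
    e x (j+1) = e x j * (1 + 3/x + (2 - j - (j:ℚ)^2)/x^2) := by
  unfold e
  rw [E_succ, show 2*(j+1) = 2*j + 2 by ring, pow_add]
  field_simp
  ring

lemma d_succ {x : ℚ} (hx : 0 < x) (j : ℕ) :
    d x (j+1) = d x j * (1 - 1/x - (j + (j:ℚ)^2)/x^2) + (3 + 1/x - 2/(3*x^2)) * e x j := by
  unfold d e qq
  rw [E_succ, E_succ, show 2*(j+1) = 2*j + 2 by ring, pow_add]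
  have : 12 * x + 6 ≠ 0 := by positivity
  generalize E (x+1) j = a
  generalize E (x-1) j = b
  field_simp
  ring

/-- the bounds -/
lemma bds {x : ℚ} (hx : 1 ≤ x) (l : ℕ) (hl : ((l:ℚ)+1)^2 ≤ x) (j : ℕ) (hj : j ≤ l) :
    (1 ≤ e x j ∧ e x j ≤ 1 + 8*j/x) ∧ (0 ≤ d x j ∧ 3*j - 20*(j:ℚ)^2/x ≤ d x j ∧
      d x j ≤ 3*j + 17*(j:ℚ)^2/x) := by
  have hx0 : 0 < x := by linarith
  induction j with
  | zero => simp [e_zero, d_zero]
  | succ j ih =>
    obtain ⟨⟨i1, i2⟩, i3, i4, i5⟩ := ih (by omega)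
    have hj1 : (j:ℚ) + 2 ≤ l + 1 := by
      have : (j:ℚ) + 1 ≤ l := by exact_mod_cast hj
      linarith
    have hj0 : (0:ℚ) ≤ j := by positivity
    have hjx : ((j:ℚ)+2)^2 ≤ x := by
      refine le_trans ?_ hl
      exact pow_le_pow_left₀ (by positivity) hj1 2
    obtain ⟨y, hy⟩ : ∃ y, y = 1/x := ⟨_, rfl⟩
    have hy0 : 0 < y := by rw [hy]; positivity
    have hxy : x * y = 1 := by rw [hy]; field_simp
    have y1 : ((j:ℚ)+2)^2 * y ≤ 1 := by
      rw [← hxy]; exact mul_le_mul_of_nonneg_right hjx hy0.le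
    have y2 : 8 * (j:ℚ) * y ≤ 1 := by
      refine le_trans ?_ y1
      exact mul_le_mul_of_nonneg_right (by nlinarith [sq_nonneg ((j:ℚ)-2)]) hy0.le
    have y3 : ((j:ℚ)^2 + j) * y ≤ 1 := by
      refine le_trans ?_ y1
      exact mul_le_mul_of_nonneg_right (by nlinarith) hy0.le
    have y4 : 4 * y ≤ 1 := by
      refine le_trans ?_ y1
      exact mul_le_mul_of_nonneg_right (by nlinarith) hy0.le
    rw [e_succ hx0, d_succ hx0]
    have c1 : 1 + 3/x + (2 - j - (j:ℚ)^2)/x^2 = 1 + 3*y + (2 - j - (j:ℚ)^2)*y^2 := by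
      rw [hy]; field_simp
    have c2 : 1 - 1/x - (j + (j:ℚ)^2)/x^2 = 1 - y - (j + (j:ℚ)^2)*y^2 := by
      rw [hy]; field_simp
    have c3 : 3 + 1/x - 2/(3*x^2) = 3 + y - 2/3*y^2 := by
      rw [hy]; field_simp
    have c4 : ∀ c : ℚ, c / x = c * y := fun c => by rw [hy]; field_simp
    rw [c1, c2, c3, c4, c4, c4]
    rw [c4] at i2 i4 i5
    push_cast
    set a := e x j with ha
    set b := d x j with hb
    -- the factors
    have p1 : ((j:ℚ)^2 + j) * y * y ≤ 1 * y := mul_le_mul_of_nonneg_right y3 hy0.le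
    have p0 : 0 ≤ ((j:ℚ)^2 + j) * y * y := by positivity
    have p2 : 4 * y * y ≤ 1 * y := mul_le_mul_of_nonneg_right y4 hy0.le
    have p3 : 0 ≤ y * y := by positivity
    have p4 : 0 ≤ (j:ℚ) * y := by positivity
    have j8 : 8 * (j:ℚ) * y * y ≤ 1 * y := mul_le_mul_of_nonneg_right y2 hy0.le
    have jj : (j:ℚ) * y * (j * y) ≤ 1 * (j * y) := mul_le_mul_of_nonneg_right (by linarith) p4
    have f1 : 1 ≤ 1 + 3*y + (2 - j - (j:ℚ)^2)*y^2 := by linarith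
    have f2 : 1 + 3*y + (2 - j - (j:ℚ)^2)*y^2 ≤ 1 + 4*y := by linarith
    have f3 : 1 - 2*y ≤ 1 - y - (j + (j:ℚ)^2)*y^2 := by linarith
    have f4 : 1 - y - (j + (j:ℚ)^2)*y^2 ≤ 1 := by linarith
    have f5 : 3 ≤ 3 + y - 2/3*y^2 := by linarith
    have f6 : 3 + y - 2/3*y^2 ≤ 3 + y := by linarith
    refine ⟨⟨?_, ?_⟩, ?_, ?_, ?_⟩
    · exact one_le_mul_of_one_le_of_one_le i1 f1
    · calc a * _ ≤ (1 + 8 * j * y) * (1 + 4*y) := mul_le_mul i2 f2 (by linarith) (by positivity)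
        _ ≤ _ := by linarith
    · refine add_nonneg (mul_nonneg i3 (by linarith)) (mul_nonneg (by linarith) (by linarith))
    · have g1 : b * (1 - 2*y) ≤ b * (1 - y - (j + (j:ℚ)^2)*y^2) := mul_le_mul_of_nonneg_left f3 i3
      have g2 : 3 * 1 ≤ (3 + y - 2/3*y^2) * a := mul_le_mul f5 i1 (by norm_num) (by linarith)
      have g3 : b * y ≤ (3*j + 17*(j:ℚ)^2*y) * y := mul_le_mul_of_nonneg_right i5 hy0.le
      linarith
    · have g1 : b * (1 - y - (j + (j:ℚ)^2)*y^2) ≤ b * 1 := mul_le_mul_of_nonneg_left f4 i3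
      have g2 : (3 + y - 2/3*y^2) * a ≤ (3 + y) * (1 + 8 * j * y) :=
        mul_le_mul f6 i2 (by linarith) (by linarith)
      linarith

/-! ### the right side of the triangular system -/

/-- the right side -/
noncomputable def R (m j : ℕ) : ℚ := 1 / (kap (m+2) - kap m) *
  ((pc (m+2) j + rc (m+2) j) - (pc m j + rc m j))

lemma kap_two (m : ℕ) : kap (m+2) - kap m = kap m / qq ((m:ℚ)+1) := by
  rw [show m + 2 = (m+1)+1 by ring, kap_succ, kap_succ]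
  unfold qq
  push_cast
  have hm : (0:ℚ) ≤ m := by positivity
  generalize kap m = K
  have e6 : 9 * ((m:ℚ)+1)^2 + 3 * ((m:ℚ)+1) - 2 = (3 * (m:ℚ) + 2) * (3 * m + 5) := by ring
  rw [e6]
  have h1 : (m:ℚ) + 2/3 ≠ 0 := by positivity
  have h2 : (m:ℚ) + 1 + 2/3 ≠ 0 := by positivity
  have h3 : 3 * (m:ℚ) + 2 ≠ 0 := by positivity
  have h4 : 3 * (m:ℚ) + 5 ≠ 0 := by positivity
  have h5 : 12 * ((m:ℚ) + 1) + 6 ≠ 0 := by positivity
  field_simp
  ring

lemma qq_pos {x : ℚ} (hx : 1 ≤ x) : 0 < qq x := by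
  unfold qq
  apply div_pos
  · nlinarith
  · positivity

lemma R_eq (m j : ℕ) : R m j = ((m:ℚ)+1)^(2*j) * (d ((m:ℚ)+1) j / kap m * Dn (2/3) j +
    (e ((m:ℚ)+1) j + d ((m:ℚ)+1) j) * Dn (4/3) j) := by
  unfold R
  have hk := (kap_pos m).ne'
  have hq : qq ((m:ℚ)+1) ≠ 0 := (qq_pos (by
    have : (0:ℚ) ≤ m := by positivity
    linarith)).ne'
  have hx : ((m:ℚ)+1)^(2*j) ≠ 0 := by positivity
  have h2 : kap (m+2) = kap m + kap m / qq ((m:ℚ)+1) := by rw [← kap_two]; ring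
  rw [kap_two]
  simp only [pc, rc, e, d]
  have e1 : (((m+2 : ℕ)) : ℚ) = (m:ℚ) + 1 + 1 := by push_cast; ring
  have e2 : (m:ℚ) = (m:ℚ) + 1 - 1 := by ring
  have hE1 : E (((m+2 : ℕ)) : ℚ) j = E ((m:ℚ)+1+1) j := congrArg (fun t => E t j) e1
  have hE2 : E ((m:ℚ)) j = E ((m:ℚ)+1-1) j := congrArg (fun t => E t j) e2
  rw [hE1, hE2, h2]
  clear h2 hE1 hE2 e1 e2
  generalize E ((m:ℚ)+1+1) j = a
  generalize E ((m:ℚ)+1-1) j = b
  generalize kap m = K at *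
  generalize qq ((m:ℚ)+1) = Q at *
  generalize ((m:ℚ)+1)^(2*j) = P at *
  field_simp
  ring

lemma Dn_shift (j : ℕ) : (1 + 3*(j:ℚ)) * Dn (4/3) j = Dn (1/3) j := by
  induction j with
  | zero => simp [Dn_zero]
  | succ j ih =>
    rw [Dn_succ, Dn_succ, ← ih]
    push_cast
    have : (0:ℚ) ≤ j := by positivity
    generalize (j:ℚ) = x at *
    generalize Dn (4/3) j = D
    have h1 : (4/3 + x) ≠ 0 := by positivity
    have h2 : (1/3 + x) ≠ 0 := by positivity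
    have h3 : (1 + x) ≠ 0 := by positivity
    field_simp
    ring

lemma Dn_le {c c' : ℚ} (hc : 0 < c) (h : c ≤ c') (j : ℕ) : Dn c' j ≤ Dn c j := by
  have hc' : 0 < c' := by linarith
  unfold Dn
  refine prod_le_prod (fun i _ => by positivity) fun i _ => ?_
  apply one_div_le_one_div_of_le (by positivity)
  exact mul_le_mul_of_nonneg_right (by linarith) (by positivity)

/-- down -/
lemma down {x : ℚ} (hx : 0 < x) (l : ℕ) (k : ℕ) (hk : k ≤ l) :
    x^(2*(l-k)) * Dn (1/3) (l-k) ≤ (((l:ℚ)+1)^2/x^2)^k * (x^(2*l) * Dn (1/3) l) := by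
  induction k with
  | zero => simp
  | succ k ih =>
    have ih := ih (by omega)
    obtain ⟨j, hj⟩ : ∃ j, l - k = j + 1 := ⟨l-k-1, by omega⟩
    have hj' : l - (k+1) = j := by omega
    rw [hj] at ih
    rw [hj']
    have hjl : (j:ℚ) + 1 ≤ l := by
      have : j + 1 ≤ l := by omega
      exact_mod_cast this
    have hj0 : (0:ℚ) ≤ j := by positivity
    have hD := Pool.Agent.NH38.Fork.R3.Dn_pos (c := 1/3) (by norm_num) j
    have h1 : x^(2*j) * Dn (1/3) j ≤ (((l:ℚ)+1)^2/x^2) * (x^(2*(j+1)) * Dn (1/3) (j+1)) := by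
      rw [Dn_succ, show 2*(j+1) = 2*j + 2 by ring, pow_add]
      have e : ((l:ℚ)+1)^2/x^2 * (x^(2*j) * x^2 * (Dn (1/3) j * (1 / ((1/3 + j) * (1 + j))))) =
          (x^(2*j) * Dn (1/3) j) * (((l:ℚ)+1)^2 / ((1/3 + j) * (1 + j))) := by
        field_simp
      rw [e]
      refine le_mul_of_one_le_right (by positivity) ?_
      rw [le_div_iff₀ (by positivity), one_mul, sq]
      exact mul_le_mul (by linarith) (by linarith) (by positivity) (by positivity)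
    calc _ ≤ _ := h1
      _ ≤ (((l:ℚ)+1)^2/x^2) * ((((l:ℚ)+1)^2/x^2)^k * (x^(2*l) * Dn (1/3) l)) :=
        mul_le_mul_of_nonneg_left ih (by positivity)
      _ = _ := by ring

lemma R_bd (m l : ℕ) (hl : ((l:ℚ)+1)^2 ≤ (m:ℚ)+1) (j : ℕ) (hj : j ≤ l) :
    |R m j| ≤ 43 * ((l:ℚ)+1) * (((m:ℚ)+1)^(2*j) * Dn (1/3) j) := by
  have hm : (0:ℚ) ≤ m := by positivity
  obtain ⟨⟨i1, i2⟩, i3, i4, i5⟩ := bds (x := (m:ℚ)+1) (by linarith) l hl j hj
  have hj0 : (0:ℚ) ≤ j := by positivity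
  have hjl : (j:ℚ) ≤ l := by exact_mod_cast hj
  have hjx : (j:ℚ) / ((m:ℚ)+1) ≤ 1 := by
    rw [div_le_one (by positivity)]
    nlinarith
  have hD1 := Pool.Agent.NH38.Fork.R3.Dn_pos (c := 1/3) (by norm_num) j
  have hD2 := Pool.Agent.NH38.Fork.R3.Dn_pos (c := 2/3) (by norm_num) j
  have hD4 := Pool.Agent.NH38.Fork.R3.Dn_pos (c := 4/3) (by norm_num) j
  have l2 : Dn (2/3) j ≤ Dn (1/3) j := Dn_le (by norm_num) (by norm_num) j
  have l4 : Dn (4/3) j ≤ Dn (1/3) j := Dn_le (by norm_num) (by norm_num) j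
  have hk := Pool.Agent.NH38.Fork.R3.kap_one m
  have hd : d ((m:ℚ)+1) j ≤ 20 * ((l:ℚ)+1) := by
    have : 17*(j:ℚ)^2/((m:ℚ)+1) ≤ 17 * j := by
      rw [show 17*(j:ℚ)^2/((m:ℚ)+1) = 17 * j * (j/((m:ℚ)+1)) by ring]
      exact mul_le_of_le_one_right (by positivity) hjx
    linarith
  have he : e ((m:ℚ)+1) j ≤ 3 := by
    have : 8*(j:ℚ)/((m:ℚ)+1) ≤ 2 := by
      rw [div_le_iff₀ (by positivity)]
      nlinarith [sq_nonneg ((j:ℚ)-1)]
    linarith
  have hdk : d ((m:ℚ)+1) j / kap m ≤ 20 * ((l:ℚ)+1) := (div_le_self i3 hk).trans hd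
  have hdk0 : 0 ≤ d ((m:ℚ)+1) j / kap m := div_nonneg i3 (by linarith)
  have h1 : 0 ≤ d ((m:ℚ)+1) j / kap m * Dn (2/3) j +
      (e ((m:ℚ)+1) j + d ((m:ℚ)+1) j) * Dn (4/3) j :=
    add_nonneg (mul_nonneg hdk0 hD2.le) (mul_nonneg (by linarith) hD4.le)
  have h2 : d ((m:ℚ)+1) j / kap m * Dn (2/3) j +
      (e ((m:ℚ)+1) j + d ((m:ℚ)+1) j) * Dn (4/3) j ≤ 43 * ((l:ℚ)+1) * Dn (1/3) j := by
    have a1 : d ((m:ℚ)+1) j / kap m * Dn (2/3) j ≤ 20 * ((l:ℚ)+1) * Dn (1/3) j :=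
      mul_le_mul hdk l2 hD2.le (by positivity)
    have a2 : (e ((m:ℚ)+1) j + d ((m:ℚ)+1) j) * Dn (4/3) j ≤ (23 * ((l:ℚ)+1)) * Dn (1/3) j := by
      refine mul_le_mul ?_ l4 hD4.le (by positivity)
      have : (0:ℚ) ≤ l := by positivity
      linarith
    linarith
  rw [R_eq, abs_mul, abs_of_nonneg (by positivity), abs_of_nonneg h1]
  calc _ ≤ ((m:ℚ)+1)^(2*j) * (43 * ((l:ℚ)+1) * Dn (1/3) j) :=
        mul_le_mul_of_nonneg_left h2 (by positivity)
    _ = _ := by ring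

lemma R_main (m l : ℕ) (hl : ((l:ℚ)+1)^2 ≤ (m:ℚ)+1) :
    |R m l - ((m:ℚ)+1)^(2*l) * (Dn (1/3) l + 3*l/kap m * Dn (2/3) l)| ≤
      48 * ((l:ℚ)+1)^2/((m:ℚ)+1) * (((m:ℚ)+1)^(2*l) * Dn (1/3) l) := by
  have hm : (0:ℚ) ≤ m := by positivity
  obtain ⟨⟨i1, i2⟩, i3, i4, i5⟩ := bds (x := (m:ℚ)+1) (by linarith) l hl l le_rfl
  have hl0 : (0:ℚ) ≤ l := by positivity
  have hD1 := Pool.Agent.NH38.Fork.R3.Dn_pos (c := 1/3) (by norm_num) l
  have hD2 := Pool.Agent.NH38.Fork.R3.Dn_pos (c := 2/3) (by norm_num) l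
  have hD4 := Pool.Agent.NH38.Fork.R3.Dn_pos (c := 4/3) (by norm_num) l
  have l2 : Dn (2/3) l ≤ Dn (1/3) l := Dn_le (by norm_num) (by norm_num) l
  have l4 : Dn (4/3) l ≤ Dn (1/3) l := Dn_le (by norm_num) (by norm_num) l
  have hk := Pool.Agent.NH38.Fork.R3.kap_one m
  set x := (m:ℚ)+1 with hx
  have hx0 : 0 < x := by positivity
  have hd : |d x l - 3*l| ≤ 20 * (l:ℚ)^2/x := by
    have h17 : 17 * (l:ℚ)^2/x ≤ 20 * (l:ℚ)^2/x := by
      apply div_le_div_of_nonneg_right _ hx0.le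
      nlinarith [sq_nonneg (l:ℚ)]
    rw [abs_le]
    constructor <;> linarith
  have hdk : |(d x l - 3*l) / kap m| ≤ 20 * (l:ℚ)^2/x := by
    rw [abs_div, abs_of_pos (by linarith : 0 < kap m)]
    exact (div_le_self (abs_nonneg _) hk).trans hd
  have he : |e x l - 1 + (d x l - 3*l)| ≤ 8*l/x + 20 * (l:ℚ)^2/x := by
    refine (abs_add_le _ _).trans (add_le_add ?_ hd)
    rw [abs_of_nonneg (by linarith)]
    linarith
  have e1 : R m l - x^(2*l) * (Dn (1/3) l + 3*l/kap m * Dn (2/3) l) =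
      x^(2*l) * ((d x l - 3*l) / kap m * Dn (2/3) l + (e x l - 1 + (d x l - 3*l)) * Dn (4/3) l) := by
    rw [R_eq, ← hx, ← Dn_shift]
    ring
  rw [e1, abs_mul, abs_of_nonneg (by positivity : (0:ℚ) ≤ x^(2*l))]
  have h1 : |(d x l - 3*l) / kap m * Dn (2/3) l + (e x l - 1 + (d x l - 3*l)) * Dn (4/3) l| ≤
      48 * ((l:ℚ)+1)^2/x * Dn (1/3) l := by
    refine (abs_add_le _ _).trans ?_
    rw [abs_mul, abs_mul, abs_of_pos hD2, abs_of_pos hD4]
    have a1 := mul_le_mul hdk l2 hD2.le (by positivity)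
    have a2 := mul_le_mul he l4 hD4.le (by positivity)
    refine (add_le_add a1 a2).trans ?_
    rw [← add_mul]
    refine mul_le_mul_of_nonneg_right ?_ hD1.le
    rw [← add_div, ← add_div]
    apply div_le_div_of_nonneg_right _ hx0.le
    nlinarith
  calc _ ≤ x^(2*l) * (48 * ((l:ℚ)+1)^2/x * Dn (1/3) l) := mul_le_mul_of_nonneg_left h1 (by positivity)
    _ = _ := by ring

/-- the coefficients, with `kap` -/
lemma dvQ (m l : ℕ) (hm : ¬ Even m) (hln : (l+1)^2 ≤ m + 1) :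
    |(dv (m+1)).coeff l - (((m:ℚ)+1)/2)^(2*l) * (Dn (1/3) l + 3*l/kap m * Dn (2/3) l)| ≤
      134 * ((l:ℚ)+1)^2/((m:ℚ)+1) * ((((m:ℚ)+1)/2)^(2*l) * Dn (1/3) l) := by
  have hm2 : ¬ Even (m+2) := by
    rw [Nat.even_add]
    simp [hm]
  have hl : ((l:ℚ)+1)^2 ≤ (m:ℚ)+1 := by exact_mod_cast hln
  have h4 : (0:ℚ) < 4^l := by positivity
  have hl0 : (0:ℚ) ≤ l := by positivity
  have hD1 := Pool.Agent.NH38.Fork.R3.Dn_pos (c := 1/3) (by norm_num) l
  have i1 := Pool.Agent.NH38.Fork.R3.inv (fun i => (dv (m+1)).coeff i) (R m) (fun k => by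
    have h1 := sv_sum m hm k
    have h3 := sv_sum (m+2) hm2 k
    unfold R
    rw [← h1, ← h3, ← Finset.sum_sub_distrib, Finset.mul_sum]
    refine Finset.sum_congr rfl fun i _ => ?_
    have : dv (m+1) = Polynomial.C (1 / (kap (m+2) - kap m)) * (sv (m+2) - sv m) := rfl
    rw [this, Polynomial.coeff_C_mul, Polynomial.coeff_sub]
    ring) l
  rw [sum_range_succ'] at i1
  simp only [pow_zero, one_mul, Nat.add_zero, Nat.choose_zero_right, Nat.cast_one, Nat.sub_zero] at i1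
  have hmain := R_main m l hl
  have hyb := Pool.Agent.NH38.Fork.R3.y_bd (n := m+1) (l := l) hln
  push_cast at hyb
  set x := (m:ℚ)+1 with hx
  have hx0 : 0 < x := by positivity
  set T := x^(2*l) * Dn (1/3) l with hT
  have hT0 : 0 < T := by positivity
  have h1 : |∑ k ∈ range l, (-1)^(k+1) * (Nat.choose (l+(k+1)) (k+1) : ℚ) * R m (l-(k+1))| ≤
      86 * ((l:ℚ)+1)^2/x * T := by
    rcases Nat.eq_zero_or_pos l with h0 | h0
    · subst h0
      rw [range_zero, sum_empty, abs_zero]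
      positivity
    · set y := ((l:ℚ)+1) * (((l:ℚ)+1)^2/x^2) with hy
      have hy0 : 0 ≤ y := by positivity
      have hyh : y ≤ 1/2 := by
        have := Pool.Agent.NH38.Fork.R3.y_half (n := m+1) (l := l) hln h0
        push_cast at this
        exact hyb.trans this
      calc _ ≤ ∑ k ∈ range l, |(-1)^(k+1) * (Nat.choose (l+(k+1)) (k+1) : ℚ) * R m (l-(k+1))| :=
            abs_sum_le_sum_abs _ _
        _ ≤ ∑ k ∈ range l, y^k * (y * (43 * ((l:ℚ)+1) * T)) := by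
            refine sum_le_sum fun k hk => ?_
            rw [mem_range] at hk
            rw [abs_mul, abs_mul, abs_pow, abs_neg, abs_one, one_pow, one_mul, Nat.abs_cast]
            have c1 := Pool.Agent.NH38.Fork.R3.choose_bd l (k+1)
            have c2 := R_bd m l hl (l-(k+1)) (by omega)
            have c3 := down hx0 l (k+1) (by omega)
            rw [← hx] at c2
            calc _ ≤ ((l:ℚ)+1)^(k+1) * (43 * ((l:ℚ)+1) * ((((l:ℚ)+1)^2/x^2)^(k+1) * T)) :=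
                  mul_le_mul c1 (c2.trans (mul_le_mul_of_nonneg_left c3 (by positivity)))
                    (abs_nonneg _) (by positivity)
              _ = y^(k+1) * (43 * ((l:ℚ)+1) * T) := by rw [hy, mul_pow]; ring
              _ = _ := by ring
        _ = (∑ k ∈ range l, y^k) * (y * (43 * ((l:ℚ)+1) * T)) := by rw [← sum_mul]
        _ ≤ 2 * (y * (43 * ((l:ℚ)+1) * T)) :=
            mul_le_mul_of_nonneg_right (Pool.Agent.NH38.Fork.R3.geo hy0 hyh l) (by positivity)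
        _ ≤ 2 * ((((l:ℚ)+1)/x) * (43 * ((l:ℚ)+1) * T)) := by
            refine mul_le_mul_of_nonneg_left ?_ (by norm_num)
            exact mul_le_mul_of_nonneg_right hyb (by positivity)
        _ = _ := by ring
  have fh : 4^l * (x/2)^(2*l) = x^(2*l) := by
    rw [div_pow, pow_mul 2 2 l]
    norm_num
    field_simp
  refine le_of_mul_le_mul_left ?_ h4
  nth_rewrite 1 [← abs_of_pos h4]
  rw [← abs_mul]
  have e1 : 4^l * ((dv (m+1)).coeff l - (x/2)^(2*l) * (Dn (1/3) l + 3*l/kap m * Dn (2/3) l)) =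
      (∑ k ∈ range l, (-1)^(k+1) * (Nat.choose (l+(k+1)) (k+1) : ℚ) * R m (l-(k+1))) +
      (R m l - x^(2*l) * (Dn (1/3) l + 3*l/kap m * Dn (2/3) l)) := by
    rw [mul_sub, i1, ← mul_assoc, fh]
    ring
  have e2 : 4^l * (134 * ((l:ℚ)+1)^2/x * ((x/2)^(2*l) * Dn (1/3) l)) =
      86 * ((l:ℚ)+1)^2/x * T + 48 * ((l:ℚ)+1)^2/x * T := by
    rw [hT, ← fh]; ring
  rw [e1, e2]
  exact (abs_add_le _ _).trans (add_le_add h1 hmain)

lemma kapR : ∃ C : ℝ, 0 ≤ C ∧ ∀ m : ℕ,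
    |1 / ((kap m : ℚ) : ℝ) - 1 / (cK * ((m:ℝ)+1)^((2:ℝ)/3))| ≤ C / ((m:ℝ)+1) := by
  obtain ⟨C0, h0⟩ := Pool.Agent.NH38.Fork.t_KE
  have hcK : 0 < cK := div_pos (Real.Gamma_pos_of_pos (by norm_num))
    (Real.Gamma_pos_of_pos (by norm_num))
  refine ⟨(2*|C0| + cK)/cK, by positivity, fun m => ?_⟩
  have h := h0 (m+1) (by omega)
  have hm : (0:ℝ) ≤ m := by positivity
  have e1 : ((kap m : ℚ) : ℝ) = ((kap (m+1) : ℚ) : ℝ) * ((3*((m:ℝ)+1) - 1)/(3*((m:ℝ)+1) + 1)) := by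
    rw [kap_succ]
    push_cast
    have h1 : (m:ℝ) + 2/3 ≠ 0 := by positivity
    have h3 : 3*((m:ℝ)+1) + 1 ≠ 0 := by positivity
    field_simp
    ring
  have hK1 : 1 ≤ ((kap m : ℚ) : ℝ) := by exact_mod_cast Pool.Agent.NH38.Fork.R3.kap_one m
  have hK1' : 1 ≤ ((kap (m+1) : ℚ) : ℝ) := by
    exact_mod_cast Pool.Agent.NH38.Fork.R3.kap_one (m+1)
  push_cast at h
  set x := (m:ℝ)+1 with hx
  have hx1 : 1 ≤ x := by linarith
  have hx0 : 0 < x := by linarith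
  set K := ((kap m : ℚ) : ℝ)
  set K' := ((kap (m+1) : ℚ) : ℝ)
  set P := x^((2:ℝ)/3) with hP
  have hP0 : 0 < P := Real.rpow_pos_of_pos hx0 _
  have b1 : |K' - cK*P| ≤ |C0| * P / x := h.trans (by
    apply div_le_div_of_nonneg_right _ hx0.le
    exact mul_le_mul_of_nonneg_right (le_abs_self _) hP0.le)
  have b0 : |C0| * P / x ≤ |C0| * P := div_le_self (by positivity) hx1
  have b2 : K' ≤ (cK + |C0|) * P := by
    have := (le_abs_self _).trans b1
    linarith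
  have b3 : |K' - K| ≤ (cK + |C0|) * P / x := by
    have e2 : K' - K = K' * (2 / (3*x+1)) := by
      rw [e1]
      field_simp
      ring
    rw [e2, abs_of_nonneg (by positivity)]
    have h2 : 2 / (3*x+1) ≤ 1/x := by
      rw [div_le_div_iff₀ (by positivity) hx0]
      linarith
    calc K' * (2 / (3*x+1)) ≤ ((cK + |C0|) * P) * (1/x) :=
          mul_le_mul b2 h2 (by positivity) (by positivity)
      _ = _ := by ring
  have b4 : |cK * P - K| ≤ (2*|C0| + cK) * P / x := by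
    have e3 : cK * P - K = (K' - K) - (K' - cK*P) := by ring
    rw [e3]
    refine (abs_sub _ _).trans ((add_le_add b3 b1).trans (le_of_eq ?_))
    ring
  have e4 : 1 / K - 1 / (cK * P) = (cK * P - K) / (K * (cK * P)) := by
    field_simp
  rw [e4, abs_div, abs_of_pos (by positivity : 0 < K * (cK * P)), div_le_iff₀ (by positivity)]
  refine b4.trans ?_
  calc (2*|C0| + cK) * P / x = (2*|C0| + cK) / cK / x * (1 * (cK * P)) := by field_simp
    _ ≤ _ := by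
      refine mul_le_mul_of_nonneg_left ?_ (by positivity)
      exact mul_le_mul_of_nonneg_right hK1 (by positivity)

end D

open D in
theorem t_dE : S_dE := by
  obtain ⟨C1, hC1, h1⟩ := kapR
  refine ⟨2, 134 + 3*C1, fun n l hn hn2 hln => ?_⟩
  obtain ⟨m, rfl⟩ : ∃ m, n = m + 1 := ⟨n-1, by omega⟩
  have hm : ¬ Even m := by
    intro h
    rw [Nat.even_add_one] at hn
    exact hn h
  have h := dvQ m l hm hln
  have hk := h1 m
  have l2 : Pool.Agent.NH38.Fork.NG2.Dn (2/3) l ≤ Pool.Agent.NH38.Fork.NG2.Dn (1/3) l :=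
    Dn_le (by norm_num) (by norm_num) l
  have hD1 := Pool.Agent.NH38.Fork.R3.Dn_pos (c := 1/3) (by norm_num) l
  have hD2 := Pool.Agent.NH38.Fork.R3.Dn_pos (c := 2/3) (by norm_num) l
  have h2 := (Rat.cast_le (K := ℝ)).mpr h
  have l2' := (Rat.cast_le (K := ℝ)).mpr l2
  have hD1' := (Rat.cast_lt (K := ℝ)).mpr hD1
  have hD2' := (Rat.cast_lt (K := ℝ)).mpr hD2
  push_cast at h2 hD1' hD2'
  have c1 : (((1/3 : ℚ)) : ℝ) = 1/3 := by norm_num
  have c2 : (((2/3 : ℚ)) : ℝ) = 2/3 := by norm_num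
  have e1 := Pool.Agent.NH38.Fork.NG2.Dn_eq (1/3) (by norm_num) l
  have e2 := Pool.Agent.NH38.Fork.NG2.Dn_eq (2/3) (by norm_num) l
  rw [c1] at e1
  rw [c2] at e2
  push_cast
  rw [div_eq_mul_one_div (3 * (l:ℝ) / (cK * ((m:ℝ)+1)^((2:ℝ)/3))) (rf (2/3) l * (Nat.factorial l : ℝ)),
    div_eq_mul_one_div ((((m:ℝ)+1)/2)^(2*l)) (rf (1/3) l * (Nat.factorial l : ℝ)), ← e1, ← e2]
  clear e1 e2 c1 c2
  set D1 := ((Pool.Agent.NH38.Fork.NG2.Dn (1/3) l : ℚ) : ℝ)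
  set D2 := ((Pool.Agent.NH38.Fork.NG2.Dn (2/3) l : ℚ) : ℝ)
  set x := (m:ℝ)+1 with hx
  have hx0 : 0 < x := by positivity
  set P := x^((2:ℝ)/3)
  set K := ((kap m : ℚ) : ℝ)
  set v := (((dv (m+1)).coeff l : ℚ) : ℝ)
  have hl0 : (0:ℝ) ≤ l := by positivity
  have e3 : v - (x/2)^(2*l) * (D1 + 3*l/(cK*P) * D2) = (v - (x/2)^(2*l) * (D1 + 3*l/K * D2)) +
      (x/2)^(2*l) * (3*l) * ((1/K - 1/(cK*P)) * D2) := by ring
  rw [e3]
  refine (abs_add_le _ _).trans ((add_le_add_left h2 _).trans ?_)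
  have h3 : |(x/2)^(2*l) * (3*l) * ((1/K - 1/(cK*P)) * D2)| ≤
      (x/2)^(2*l) * (3*l) * (C1/x * D1) := by
    rw [abs_mul, abs_mul (1/K - 1/(cK*P)), abs_of_nonneg (by positivity : 0 ≤ (x/2)^(2*l) * (3*(l:ℝ))),
      abs_of_pos hD2']
    refine mul_le_mul_of_nonneg_left ?_ (by positivity)
    exact mul_le_mul hk l2' hD2'.le (by positivity)
  have h4 : (x/2)^(2*l) * (3*l) * (C1/x * D1) ≤ 3*C1*((l:ℝ)+1)^2/x*((x/2)^(2*l)*D1) := by
    have : (l:ℝ) ≤ ((l:ℝ)+1)^2 := by nlinarith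
    calc (x/2)^(2*l) * (3*l) * (C1/x * D1) = (3*C1/x*((x/2)^(2*l)*D1)) * l := by ring
      _ ≤ (3*C1/x*((x/2)^(2*l)*D1)) * ((l:ℝ)+1)^2 := mul_le_mul_of_nonneg_left this (by positivity)
      _ = _ := by ring
  refine (add_le_add_right (h3.trans h4) _).trans (le_of_eq ?_)
  ring


end Pool.Agent.H966.N3
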