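import Pool.Agent.H966.N3.Stm

/-!
# Project N3, task K: the constants and the displaced corners (helper696)
-/

set_option autoImplicit false

namespace Pool.Agent.H966.N3

open Pool.Agent.NH38.Step.A2 (BB)
open Pool.Agent.NH38.Fork (x1 x2 rr rf cK cR sv FCross)
open Pool.Agent.H757R2.CardyLimit (gd)
open Filter Topology

namespace K

theorem const_id {S x y c B : ℝ} (hB : 0 < B) (hx : 0 < x) (hxy : x < y) (hy : y < 1) :
    ((1 - y) / (1 - x) * (1 - (1 - y) / (1 - x)))^(-(2/3):ℝ) / B *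
    (((1 - x) * (c * B * S^(-(2:ℝ)/3) * (y - x)^(-(1:ℝ)/3) * (y * (1 - y))^((2:ℝ)/3)) +
      (1 - y) * (c * B * S^(-(2:ℝ)/3) * (y - x)^(-(1:ℝ)/3) * (x * (1 - x))^((2:ℝ)/3))) /
      (1 - x)^2) =
  c * (((1 - x)^((1:ℝ)/3) * y^((2:ℝ)/3) + (1 - y)^((1:ℝ)/3) * x^((2:ℝ)/3)) / (y - x)) *
    S^(-(2:ℝ)/3) := by
  have h1x : 0 < 1 - x := by linarith
  have h1y : 0 < 1 - y := by linarith
  have hy0 : 0 < y := by linarith
  have hd : 0 < y - x := sub_pos.2 hxy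
  have hu : (1 - y) / (1 - x) * (1 - (1 - y) / (1 - x)) = (1 - y) * (y - x) * ((1 - x)^2)⁻¹ := by
    field_simp
    ring
  rw [hu]
  obtain ⟨a, ha⟩ : ∃ a, a = 1 - x := ⟨_, rfl⟩
  obtain ⟨b, hb⟩ : ∃ b, b = 1 - y := ⟨_, rfl⟩
  obtain ⟨d, hd'⟩ : ∃ d, d = y - x := ⟨_, rfl⟩
  rw [← ha, ← hb, ← hd']
  rw [← ha] at h1x
  rw [← hb] at h1y
  rw [← hd'] at hd
  have e1 : (b * d * (a^2)⁻¹)^(-(2/3):ℝ) = b^(-(2:ℝ)/3) * d^(-(2:ℝ)/3) * (a^(-(2:ℝ)/3) * a^2) := by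
    rw [Real.mul_rpow (by positivity) (by positivity), Real.mul_rpow h1y.le hd.le, Real.inv_rpow (by positivity),
      ← Real.rpow_natCast _ 2, ← Real.rpow_mul h1x.le, ← Real.rpow_neg h1x.le, ← Real.rpow_add h1x]
    norm_num
  have e2 : b^(-(2:ℝ)/3) * b^((2:ℝ)/3) = 1 := by
    rw [← Real.rpow_add h1y]; norm_num
  have e3 : a^(-(2:ℝ)/3) * a^((2:ℝ)/3) = 1 := by
    rw [← Real.rpow_add h1x]; norm_num
  have e4 : b^(-(2:ℝ)/3) * b = b^((1:ℝ)/3) := by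
    have := Real.rpow_add h1y (-(2:ℝ)/3) 1
    rw [Real.rpow_one] at this
    rw [← this]
    norm_num
  have e5 : a^(-(2:ℝ)/3) * a = a^((1:ℝ)/3) := by
    have := Real.rpow_add h1x (-(2:ℝ)/3) 1
    rw [Real.rpow_one] at this
    rw [← this]
    norm_num
  have e6 : d^(-(2:ℝ)/3) * d^(-(1:ℝ)/3) = d⁻¹ := by
    rw [← Real.rpow_add hd, ← Real.rpow_neg_one]
    norm_num
  rw [e1, Real.mul_rpow hy0.le h1y.le, Real.mul_rpow hx.le h1x.le]
  calc _ = c * S^(-(2:ℝ)/3) * (d^(-(2:ℝ)/3) * d^(-(1:ℝ)/3)) *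
        ((a^(-(2:ℝ)/3) * a) * y^((2:ℝ)/3) * (b^(-(2:ℝ)/3) * b^((2:ℝ)/3)) +
          (b^(-(2:ℝ)/3) * b) * x^((2:ℝ)/3) * (a^(-(2:ℝ)/3) * a^((2:ℝ)/3))) := by
        have ha0 : a ≠ 0 := h1x.ne'
        have hB0 : B ≠ 0 := hB.ne'
        have hq : a^2 * (1 / a^2) = 1 := by field_simp
        have hr : B / B = 1 := div_self hB0
        have : (b^(-(2:ℝ)/3) * d^(-(2:ℝ)/3) * (a^(-(2:ℝ)/3) * a^2)) / B *
            ((a * (c * B * S^(-(2:ℝ)/3) * d^(-(1:ℝ)/3) * (y^((2:ℝ)/3) * b^((2:ℝ)/3))) +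
              b * (c * B * S^(-(2:ℝ)/3) * d^(-(1:ℝ)/3) * (x^((2:ℝ)/3) * a^((2:ℝ)/3)))) / a^2) =
            (B / B) * (a^2 * (1 / a^2)) * (c * S^(-(2:ℝ)/3) * (d^(-(2:ℝ)/3) * d^(-(1:ℝ)/3)) *
        ((a^(-(2:ℝ)/3) * a) * y^((2:ℝ)/3) * (b^(-(2:ℝ)/3) * b^((2:ℝ)/3)) +
          (b^(-(2:ℝ)/3) * b) * x^((2:ℝ)/3) * (a^(-(2:ℝ)/3) * a^((2:ℝ)/3)))) := by ring
        rw [this, hq, hr, one_mul, one_mul]
    _ = _ := by
        rw [e2, e3, e4, e5, e6]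
        ring

/-- the cross-ratio of the displaced corners -/
theorem cross_lim {x y E E' : ℝ} (hxy : x < y) (hy : y < 1) {e t t' : ℕ → ℝ}
    (he : ∀ n, 0 < e n) (he0 : Tendsto e atTop (𝓝 0)) (ht : ∀ n, t n ∈ Set.Ioo x y)
    (h1 : Tendsto (fun n => (t n - x) / e n) atTop (𝓝 E))
    (h2 : Tendsto (fun n => (y - t' n) / e n) atTop (𝓝 E')) :
    Tendsto (fun n => ((1 - t' n) / (1 - t n) - (1 - y) / (1 - x)) / e n) atTop
    (𝓝 (((1 - x) * E' + (1 - y) * E) / (1 - x)^2)) := by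
  have h1x : 0 < 1 - x := by linarith
  have l1 : Tendsto (fun n => t n - x) atTop (𝓝 0) := by
    have h3 := h1.mul he0
    rw [mul_zero] at h3
    refine h3.congr fun n => ?_
    have := (he n).ne'
    field_simp
  have l4 : Tendsto (fun n => 1 - t n) atTop (𝓝 (1 - x)) := by
    have h3 := l1.const_sub (1 - x)
    rw [sub_zero] at h3
    refine h3.congr fun n => by ring
  have l5 : Tendsto (fun n => (1 - t n) * (1 - x)) atTop (𝓝 ((1 - x)^2)) := by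
    have h3 := l4.mul_const (1 - x)
    rwa [← sq] at h3
  have l6 : Tendsto (fun n => (1 - x) * ((y - t' n) / e n) + (1 - y) * ((t n - x) / e n)) atTop
      (𝓝 ((1 - x) * E' + (1 - y) * E)) := (h2.const_mul (1 - x)).add (h1.const_mul (1 - y))
  refine (l6.div l5 (by positivity)).congr fun n => ?_
  have g1 := (he n).ne'
  have g3 : 1 - t n ≠ 0 := by
    have := (ht n).2
    have : 0 < 1 - t n := by linarith
    exact this.ne'
  have g4 : 1 - x ≠ 0 := h1x.ne'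
  show ((1 - x) * ((y - t' n) / e n) + (1 - y) * ((t n - x) / e n)) / ((1 - t n) * (1 - x)) = _
  field_simp
  ring

end K

theorem t_K1 : S_K1 := by
  intro S x y _ hx hxy hy
  exact K.const_id Pool.Agent.NH38.Step.A2.BB_pos hx hxy hy

theorem t_K2 : S_K2 := by
  intro x y E E' hx hxy hy e t t' he he0 ht _ h1 h2
  exact K.cross_lim hxy hy he he0 ht h1 h2

end Pool.Agent.H966.N3
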