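import Pool.Agent.H966.N3.Rd
import Pool.Agent.H966.N3.C
import Pool.Agent.H966.N3.D
import Pool.Agent.H966.N3.P
import Pool.Agent.H966.N3.K
import Pool.Agent.H966.EX.Lim

/-!
The second order of Cardy's formula at the fork: the displaced corners (helper966).
-/

set_option autoImplicit false

namespace Pool.Agent.H966.N3

open Pool.Agent.H988R2.Perc hiding X
open Pool.Agent.NH38.Step (cardy)
open Pool.Agent.NH38.Step.A2 (BB cardy_deriv)
open Pool.Agent.NH38.Fork (x1 x2 rr rf cK cR sv FCross)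
open Pool.Agent.H965.K3 (dv FK Cross3 CrossL)
open Pool.Agent.H757R2.CardyLimit (gd)
open Pool.Agent.H966.T1 (FCross1)
open Pool.Agent.H966.EX (FCrossU)
open Pool.Agent.H966.N1 (chain x1_symm x2_symm)
open Filter Topology MeasureTheory Set

/-- the displaced corners in the half-plane -/
structure Disp (S x y : ℝ) (e t t' : ℕ → ℝ) : Prop where
  hS : 0 < S
  hx : 0 < x
  hxy : x < y
  hy : y < 1
  he : ∀ n, 0 < e n
  he0 : Tendsto e atTop (𝓝 0)
  ht : ∀ n, t n ∈ Ioo x y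
  ht' : ∀ n, t' n ∈ Ioo x y
  h1 : Tendsto (fun n => (t n - x) / e n) atTop
    (𝓝 (cR * BB * S^(-(2:ℝ)/3) * (y - x)^(-(1:ℝ)/3) * (x * (1 - x))^((2:ℝ)/3)))
  h2 : Tendsto (fun n => (y - t' n) / e n) atTop
    (𝓝 (cR * BB * S^(-(2:ℝ)/3) * (y - x)^(-(1:ℝ)/3) * (y * (1 - y))^((2:ℝ)/3)))

variable {S x y : ℝ} {e t t' : ℕ → ℝ}

theorem Disp.mirror (D : Disp S x y e t t') :
    Disp S (1 - y) (1 - x) e (fun n => 1 - t' n) (fun n => 1 - t n) := by
  have e0 : 1 - x - (1 - y) = y - x := by ring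
  refine ⟨D.hS, by linarith [D.hy], by linarith [D.hxy], by linarith [D.hx], D.he, D.he0,
    fun n => ⟨by linarith [(D.ht' n).2], by linarith [(D.ht' n).1]⟩,
    fun n => ⟨by linarith [(D.ht n).2], by linarith [(D.ht n).1]⟩, ?_, ?_⟩
  · rw [e0, show (1 - y) * (1 - (1 - y)) = y * (1 - y) by ring]
    exact D.h2.congr fun n => by congr 1; ring
  · rw [e0, show (1 - x) * (1 - (1 - x)) = x * (1 - x) by ring]
    exact D.h1.congr fun n => by congr 1; ring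

/-- the two banks -/
theorem Disp.banks (D : Disp S x y e t t') :
    Tendsto (fun n => (cardy (t n * (1 - t' n) / (t' n * (1 - t n))) -
      cardy (x * (1 - y) / (y * (1 - x)))) / e n) atTop
      (𝓝 (cR * (((x * (1 - x))^((1:ℝ)/3) + (y * (1 - y))^((1:ℝ)/3)) / (y - x)) *
        S^(-(2:ℝ)/3))) := by
  have hx := D.hx
  have hxy := D.hxy
  have hy := D.hy
  have h1x : 0 < 1 - x := by linarith
  have h1y : 0 < 1 - y := by linarith
  have hy0 : 0 < y := by linarith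
  have l1 := Pool.Agent.H966.N1.cross_lim hx hxy hy D.he D.he0 D.ht D.ht' D.h1 D.h2
  have hc0 : 0 < x * (1 - y) / (y * (1 - x)) := by positivity
  have hc1 : x * (1 - y) / (y * (1 - x)) < 1 := by
    rw [div_lt_one (by positivity)]
    nlinarith
  have l2 := chain (cardy_deriv hc0 hc1) D.he D.he0 l1
  rwa [Pool.Agent.H966.N1.const_id D.hS hx hxy hy] at l2

/-- left bank - right wall -/
theorem Disp.out (D : Disp S x y e t t') :
    Tendsto (fun n => (cardy (t n) - cardy x) / e n) atTop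
      (𝓝 (cR * (y - x)^(-(1:ℝ)/3) * S^(-(2:ℝ)/3))) := by
  have l3 := chain (cardy_deriv D.hx (by linarith [D.hxy, D.hy])) D.he D.he0 D.h1
  rwa [Pool.Agent.H966.N1.const_id1 D.hS D.hx D.hxy D.hy] at l3

/-- left wall - right bank -/
theorem Disp.inw (D : Disp S x y e t t') :
    Tendsto (fun n => (cardy (1 - t' n) - cardy (1 - y)) / e n) atTop
      (𝓝 (cR * (y - x)^(-(1:ℝ)/3) * S^(-(2:ℝ)/3))) := by
  have h := D.mirror.out
  rwa [show 1 - x - (1 - y) = y - x by ring] at h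

/-- left wall and left bank - right bank -/
theorem Disp.left (D : Disp S x y e t t') :
    Tendsto (fun n => (cardy ((1 - t' n) / (1 - t n)) - cardy ((1 - y) / (1 - x))) / e n) atTop
      (𝓝 (cR * (((1 - x)^((1:ℝ)/3) * y^((2:ℝ)/3) + (1 - y)^((1:ℝ)/3) * x^((2:ℝ)/3)) / (y - x)) *
        S^(-(2:ℝ)/3))) := by
  have hx := D.hx
  have hxy := D.hxy
  have hy := D.hy
  have h1x : 0 < 1 - x := by linarith
  have h1y : 0 < 1 - y := by linarith
  have l1 := t_K2 x y _ _ hx hxy hy e t t' D.he D.he0 D.ht D.ht' D.h1 D.h2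
  have hc0 : 0 < (1 - y) / (1 - x) := by positivity
  have hc1 : (1 - y) / (1 - x) < 1 := by
    rw [div_lt_one h1x]
    linarith
  have l2 := chain (cardy_deriv hc0 hc1) D.he D.he0 l1
  rwa [t_K1 S x y D.hS hx hxy hy] at l2

/-- left bank - right bank and right wall -/
theorem Disp.right (D : Disp S x y e t t') :
    Tendsto (fun n => (cardy (t n / t' n) - cardy (x / y)) / e n) atTop
      (𝓝 (cR * (((1 - x)^((2:ℝ)/3) * y^((1:ℝ)/3) + (1 - y)^((2:ℝ)/3) * x^((1:ℝ)/3)) / (y - x)) *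
        S^(-(2:ℝ)/3))) := by
  have h := D.mirror.left
  rw [show 1 - x - (1 - y) = y - x by ring, show 1 - (1 - x) = x by ring,
    show 1 - (1 - y) = y by ring, mul_comm (y^((1:ℝ)/3)), mul_comm (x^((1:ℝ)/3))] at h
  refine h.congr fun n => ?_
  rw [show 1 - (1 - t n) = t n by ring, show 1 - (1 - t' n) = t' n by ring]

section rates

variable {α γ β K : ℝ} {δ : ℕ → ℝ} {a m b : ℕ → ℕ}

/-- the hypotheses on the widths -/
structure Wd (α γ β K : ℝ) (δ : ℕ → ℝ) (a m b : ℕ → ℕ) : Prop where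
  hα : 0 < α
  hγ : 0 < γ
  hβ : 0 < β
  hδ : ∀ n, 0 < δ n
  hδ0 : Tendsto δ atTop (𝓝 0)
  hm : ∀ n, Even (m n)
  ka : ∀ n, |δ n * a n - α| ≤ K * δ n
  km : ∀ n, |δ n * m n - γ| ≤ K * δ n
  kb : ∀ n, |δ n * b n - β| ≤ K * δ n

theorem Wd.swap (W : Wd α γ β K δ a m b) : Wd β γ α K δ b m a :=
  ⟨W.hβ, W.hγ, W.hα, W.hδ, W.hδ0, W.hm, W.kb, W.km, W.ka⟩

theorem Wd.rateLeft (W : Wd α γ β K δ a m b) :
    Tendsto (fun n => (perc.real (Cross3 (a n) (m n) (b n)) -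
      Gk (α/(α+γ+β)) (β/(α+γ+β))) / (δ n)^((2:ℝ)/3)) atTop
      (𝓝 (Qk (α/(α+γ+β)) (β/(α+γ+β)) * (α+γ+β)^(-(2:ℝ)/3))) :=
  t_P (t_Rate3 t_c1 t_c2 t_dE) α γ β K W.hα W.hγ W.hβ δ a m b W.hδ W.hδ0 W.hm W.ka W.km W.kb

theorem Wd.rateRight (W : Wd α γ β K δ a m b) :
    Tendsto (fun n => (perc.real (FCrossU (a n) (m n) (b n)) -
      cardy (x1 ((α/(α+γ+β))^2) ((β/(α+γ+β))^2) / x2 ((α/(α+γ+β))^2) ((β/(α+γ+β))^2))) /
        (δ n)^((2:ℝ)/3)) atTop
      (𝓝 (cR * (((1 - x1 ((α/(α+γ+β))^2) ((β/(α+γ+β))^2))^((2:ℝ)/3) *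
        (x2 ((α/(α+γ+β))^2) ((β/(α+γ+β))^2))^((1:ℝ)/3) +
        (1 - x2 ((α/(α+γ+β))^2) ((β/(α+γ+β))^2))^((2:ℝ)/3) *
        (x1 ((α/(α+γ+β))^2) ((β/(α+γ+β))^2))^((1:ℝ)/3)) /
        (x2 ((α/(α+γ+β))^2) ((β/(α+γ+β))^2) - x1 ((α/(α+γ+β))^2) ((β/(α+γ+β))^2))) *
        (α+γ+β)^(-(2:ℝ)/3))) := by
  have h := W.swap.rateLeft
  have es : β + γ + α = α + γ + β := by ring
  unfold Gk Qk at h
  rw [es, x1_symm ((α/(α+γ+β))^2) ((β/(α+γ+β))^2), x2_symm ((α/(α+γ+β))^2) ((β/(α+γ+β))^2)] at h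
  set X := x1 ((α/(α+γ+β))^2) ((β/(α+γ+β))^2)
  set Y := x2 ((α/(α+γ+β))^2) ((β/(α+γ+β))^2)
  rw [show 1 - X - (1 - Y) = Y - X by ring, show 1 - (1 - X) = X by ring,
    show 1 - (1 - Y) = Y by ring, mul_comm (Y^((1:ℝ)/3)), mul_comm (X^((1:ℝ)/3))] at h
  refine h.congr fun n => ?_
  obtain ⟨l, hl⟩ := W.hm n
  have hl2 : m n = 2 * l := by omega
  rw [hl2, Pool.Agent.H966.EX.mirror_eq]

/-- the right wall moved by one column -/
theorem Wd.pred (W : Wd α γ β K δ a m b) : Wd α γ β (K + 1) δ a m (fun n => b n - 1) := by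
  have h : ∀ n, K * δ n ≤ (K + 1) * δ n := fun n => by have := W.hδ n; nlinarith
  refine ⟨W.hα, W.hγ, W.hβ, W.hδ, W.hδ0, W.hm, fun n => (W.ka n).trans (h n),
    fun n => (W.km n).trans (h n), fun n => ?_⟩
  have h1 := W.kb n
  have h2 := W.hδ n
  have h3 : ((b n - 1 : ℕ) : ℝ) ≤ b n := by exact_mod_cast Nat.sub_le _ _
  have h4 : (b n : ℝ) ≤ ((b n - 1 : ℕ) : ℝ) + 1 := by exact_mod_cast (by omega : b n ≤ b n - 1 + 1)
  rw [abs_le] at h1 ⊢
  constructor <;> nlinarith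

theorem Wd.ev (W : Wd α γ β K δ a m b) :
    ∀ᶠ n in atTop, 1 ≤ a n ∧ 1 ≤ m n ∧ 2 ≤ b n := by
  have ev : ∀ (c : ℝ) (k : ℕ → ℕ), 0 < c → (∀ n, |δ n * k n - c| ≤ K * δ n) →
      ∀ᶠ n in atTop, 2 ≤ k n := by
    intro c k hc hk
    have h1 := Pool.Agent.NH38.Fork.R5.lim_of W.hδ0 hk
    have h2 := (Pool.Agent.NH38.Fork.GF.lim_top W.hδ W.hδ0 hc h1).eventually_ge_atTop 2
    filter_upwards [h2] with n hn
    exact_mod_cast hn
  filter_upwards [ev α a W.hα W.ka, ev γ m W.hγ W.km, ev β b W.hβ W.kb] with n e1 e2 e3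
  exact ⟨by omega, by omega, e3⟩

end rates

/-- left bank - right bank and right wall: the union -/
theorem crossU_union (a m b : ℕ) : FCrossU a m b = FCross a m b ∪ FCross1 a m b := by
  ext ω
  constructor
  · rintro ⟨x, y, h1, h2, h3 | h3, h4⟩
    · exact Or.inr ⟨x, y, h1, h2, h3.1, h3.2, h4⟩
    · exact Or.inl ⟨x, y, h1, h2, by push_cast; exact h3, h4⟩
  · rintro (⟨x, y, h1, h2, h3, h4⟩ | ⟨x, y, h1, h2, h3, h3', h4⟩)
    · exact ⟨x, y, h1, h2, Or.inr (by push_cast at h3; exact h3), h4⟩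
    · exact ⟨x, y, h1, h2, Or.inl ⟨h3, h3'⟩, h4⟩

theorem interU_eq (a m b : ℕ) : perc.real (FCross a m b ∩ FCross1 a m b) =
    perc.real (FCross a m b) + perc.real (FCross1 a m b) - perc.real (FCrossU a m b) := by
  have h := measureReal_union_add_inter (μ := perc) (s := FCross a m b)
    (Pool.Agent.H965.K3.meas_cross1 a m b)
  rw [← crossU_union] at h
  linarith

end Pool.Agent.H966.N3
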