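import Pool.Agent.H966.N3.Stm
import Pool.Graph.R_pool_sql_team_seeded_3dad9d7b.NH38.Fork.R4
import Pool.Graph.R_pool_sql_team_seeded_3dad9d7b.NH38.Fork.R3

set_option autoImplicit false

/-!
# The sharp rate for the union of the two walls of the left arm: the uniform estimate (helper966).
Adapted from `NH38.Fork.R4a` (helper81).
-/

namespace Pool.Agent.H966.N3

open Polynomial Filter Topology Finset
open Pool.Agent.NH38.Step (cardy)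
open Pool.Agent.NH38.Fork
open Pool.Agent.NH38.Fork.NG5 (hf mj_eq M0_pos kap_pos hf_nonneg mj_nonneg mj_le)
open Pool.Agent.NH38.Fork.R4 (Rl SE small cK_pos cM_pos rf_pos exp_le last H_rl Bt_pos)
open Pool.Agent.H965.K3 (dv FK ap3 cd)

/-- the statement `S_dE` with an exponent -/
def DE (k : ℕ) : Prop := ∃ C : ℝ, ∀ n l : ℕ, Even n → 2 ≤ n → (l+1)^2 ≤ n →
  |(((dv n).coeff l : ℚ) : ℝ) - ((n:ℝ)/2)^(2*l) * (1 / (rf (1/3) l * (Nat.factorial l : ℝ)) +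
    3 * (l:ℝ) / (cK * (n:ℝ)^((2:ℝ)/3)) / (rf (2/3) l * (Nat.factorial l : ℝ)))| ≤
    C * ((l:ℝ)+1)^k / n * (((n:ℝ)/2)^(2*l) / (rf (1/3) l * (Nat.factorial l : ℝ)))

lemma DE_mono {k k' : ℕ} (h : k ≤ k') (hd : DE k) : DE k' := by
  obtain ⟨C, hC⟩ := hd
  refine ⟨|C|, fun n l hn hn2 hl => (hC n l hn hn2 hl).trans ?_⟩
  have h1 := rf_pos (s := 1/3) (by norm_num) l
  apply mul_le_mul_of_nonneg_right _ (by positivity)
  apply div_le_div_of_nonneg_right _ (Nat.cast_nonneg n)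
  have h2 : (1:ℝ) ≤ (l:ℝ) + 1 := by
    have : (0:ℝ) ≤ l := Nat.cast_nonneg l
    linarith
  exact mul_le_mul (le_abs_self C) (pow_le_pow_right₀ h2 h) (by positivity) (abs_nonneg C)

lemma SE_mono {k k' : ℕ} (h : k ≤ k') (hd : SE k) : SE k' := by
  obtain ⟨C, hC⟩ := hd
  refine ⟨|C|, fun n l hn hl => (hC n l hn hl).trans ?_⟩
  have h1 := rf_pos (s := 4/3) (by norm_num) l
  have h3 : (0:ℝ) < ((kap n : ℚ) : ℝ) := by exact_mod_cast kap_pos n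
  apply mul_le_mul_of_nonneg_right _ (by positivity)
  apply div_le_div_of_nonneg_right _ (Nat.cast_nonneg n)
  have h2 : (1:ℝ) ≤ (l:ℝ) + 1 := by
    have : (0:ℝ) ≤ l := Nat.cast_nonneg l
    linarith
  exact mul_le_mul (le_abs_self C) (pow_le_pow_right₀ h2 h) (by positivity) (abs_nonneg C)

/-- the main term -/
noncomputable def mainK (j : ℕ) (x y : ℝ) : ℝ :=
  (2*y)^((2:ℝ)/3) * (3 / Bt) * ap3 (x^2) (y^2) j

/-- the correction -/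
noncomputable def corrK (j : ℕ) (x y : ℝ) : ℝ :=
  (2:ℝ)^((2:ℝ)/3) * cM * (c1 (x^2) (y^2) j + 3 * (y/x)^((2:ℝ)/3) * c2 (x^2) (y^2) j)

/-- the second correction -/
noncomputable def restK (j : ℕ) (x y : ℝ) : ℝ :=
  (2:ℝ)^((2:ℝ)/3) * cM * (3 / (cK * x^((2:ℝ)/3))) * c3 (x^2) (y^2) j

/-- the exact form of the approximation -/
lemma Tm_eq {a b L : ℝ} (ha : 0 < a) (hb : 0 < b) (hL : 0 < L) (j : ℕ) :
    ∑ p ∈ antidiagonal j, ((b/2)^(2*p.1) * (cK * b^((2:ℝ)/3) / (rf (4/3) p.1 *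
        (Nat.factorial p.1 : ℝ)) + 1 / (rf (2/3) p.1 * (Nat.factorial p.1 : ℝ)))) *
      ((a/2)^(2*p.2) * (1 / (rf (1/3) p.2 * (Nat.factorial p.2 : ℝ)) +
        3 * (p.2:ℝ) / (cK * a^((2:ℝ)/3)) / (rf (2/3) p.2 * (Nat.factorial p.2 : ℝ)))) *
      ((cM * (L/2)^(-(2:ℝ)/3)) * (rf (1/3) j * rf (2/3) j / (L/2)^(2*j))) =
    mainK j (a/L) (b/L) + L^(-(2:ℝ)/3) * (corrK j (a/L) (b/L) +
      L^(-(2:ℝ)/3) * restK j (a/L) (b/L)) := by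
  have cK0 := cK_pos
  have h1 : (L/2)^(-(2:ℝ)/3) = (2:ℝ)^((2:ℝ)/3) * L^(-(2:ℝ)/3) := by
    rw [Real.div_rpow hL.le (by norm_num), neg_div, Real.rpow_neg (by norm_num : (0:ℝ) ≤ 2),
      div_inv_eq_mul, mul_comm]
  have h2 : cK * b^((2:ℝ)/3) * (cM * (L/2)^(-(2:ℝ)/3)) = (2*(b/L))^((2:ℝ)/3) * (3 / Bt) := by
    rw [← R4.cKM, h1, Real.mul_rpow (by norm_num) (by positivity), Real.div_rpow hb.le hL.le,
      neg_div, Real.rpow_neg hL.le, div_eq_mul_inv]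
    ring
  have ha3 : 0 < a^((2:ℝ)/3) := by positivity
  have hb3 : 0 < b^((2:ℝ)/3) := by positivity
  have hL3 : 0 < L^((2:ℝ)/3) := by positivity
  have h5 : (b/L/(a/L))^((2:ℝ)/3) = b^((2:ℝ)/3) / a^((2:ℝ)/3) := by
    rw [show b/L/(a/L) = b/a by field_simp, Real.div_rpow hb.le ha.le]
  have h6 : L^(-(2:ℝ)/3) * (3 / (cK * (a/L)^((2:ℝ)/3))) = 3 / (cK * a^((2:ℝ)/3)) := by
    rw [Real.div_rpow ha.le hL.le, neg_div, Real.rpow_neg hL.le]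
    field_simp
  unfold mainK corrK restK ap3 c1 c2 c3
  rw [Finset.Nat.sum_antidiagonal_eq_sum_range_succ (fun x y =>
    ((b/2)^(2*x) * (cK * b^((2:ℝ)/3) / (rf (4/3) x *
        (Nat.factorial x : ℝ)) + 1 / (rf (2/3) x * (Nat.factorial x : ℝ)))) *
      ((a/2)^(2*y) * (1 / (rf (1/3) y * (Nat.factorial y : ℝ)) +
        3 * (y:ℝ) / (cK * a^((2:ℝ)/3)) / (rf (2/3) y * (Nat.factorial y : ℝ)))) *
      ((cM * (L/2)^(-(2:ℝ)/3)) * (rf (1/3) j * rf (2/3) j / (L/2)^(2*j)))) j]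
  simp only [Finset.mul_sum, ← Finset.sum_add_distrib]
  refine Finset.sum_congr rfl fun i hi => ?_
  have hij : i ≤ j := by
    rw [mem_range] at hi
    omega
  have h3 : (b/2)^(2*i) * (a/2)^(2*(j-i)) / (L/2)^(2*j) = ((b/L)^2)^i * ((a/L)^2)^(j-i) := by
    have e1 : (L/2)^(2*j) = (L/2)^(2*i) * (L/2)^(2*(j-i)) := by
      rw [← pow_add]
      congr 1
      omega
    rw [e1, ← pow_mul, ← pow_mul, div_pow, div_pow, div_pow, div_pow, div_pow, div_pow]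
    field_simp
  set P4 : ℝ := rf (4/3) i * (Nat.factorial i : ℝ)
  set P2 : ℝ := rf (2/3) i * (Nat.factorial i : ℝ)
  set Q1 : ℝ := rf (1/3) (j-i) * (Nat.factorial (j-i) : ℝ)
  set Q2 : ℝ := rf (2/3) (j-i) * (Nat.factorial (j-i) : ℝ)
  set R : ℝ := rf (1/3) j * rf (2/3) j with hR
  set l : ℝ := ((j - i : ℕ) : ℝ)
  have e5 : (b/L/(a/L))^((2:ℝ)/3) = cK * b^((2:ℝ)/3) * (1 / (cK * a^((2:ℝ)/3))) := by
    rw [h5]
    field_simp
  calc _ = ((b/2)^(2*i) * (a/2)^(2*(j-i)) / (L/2)^(2*j)) *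
      ((cK * b^((2:ℝ)/3) * (cM * (L/2)^(-(2:ℝ)/3))) * (R / (P4 * Q1)) +
        (cM * (L/2)^(-(2:ℝ)/3)) * (R / (P2 * Q1)) +
        (cM * (L/2)^(-(2:ℝ)/3)) * (3 * (cK * b^((2:ℝ)/3) * (1 / (cK * a^((2:ℝ)/3))))) *
          (l * (R / (P4 * Q2))) +
        (cM * (L/2)^(-(2:ℝ)/3)) * (3 / (cK * a^((2:ℝ)/3))) * (l * (R / (P2 * Q2)))) := by
        ring
    _ = _ := by
        rw [h3, h2, ← e5, ← h6, h1]
        ring

/-- the coefficients of `dv` -/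
lemma dv_rl {k : ℕ} {Cd c C0 L : ℝ} (hCd : ∀ n l : ℕ, Even n → 2 ≤ n → (l+1)^2 ≤ n →
    |(((dv n).coeff l : ℚ) : ℝ) - ((n:ℝ)/2)^(2*l) * (1 / (rf (1/3) l * (Nat.factorial l : ℝ)) +
      3 * (l:ℝ) / (cK * (n:ℝ)^((2:ℝ)/3)) / (rf (2/3) l * (Nat.factorial l : ℝ)))| ≤
      Cd * ((l:ℝ)+1)^k / n * (((n:ℝ)/2)^(2*l) / (rf (1/3) l * (Nat.factorial l : ℝ))))
    (hc : 0 < c) (hL0 : 0 < L) {a j : ℕ} (ha : Even a) (ha2 : 2 ≤ a) (hca : c * L ≤ a)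
    (hja : (j+1)^2 ≤ a) (g1 : |Cd| / c ≤ C0) (hC00 : 0 ≤ C0) :
    ∀ q ≤ j, Rl (1 + C0 * ((j:ℝ)+1)^k / L) (((dv a).coeff q : ℚ) : ℝ)
      (((a:ℝ)/2)^(2*q) * (1 / (rf (1/3) q * (Nat.factorial q : ℝ)) +
        3 * (q:ℝ) / (cK * (a:ℝ)^((2:ℝ)/3)) / (rf (2/3) q * (Nat.factorial q : ℝ)))) := by
  have cK0 := cK_pos
  intro q hq
  have hq2 : (q+1)^2 ≤ a := (Nat.pow_le_pow_left (by omega) 2).trans hja
  have h1 := hCd a q ha ha2 hq2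
  have ha0 : 0 < (a:ℝ) := lt_of_lt_of_le (mul_pos hc hL0) hca
  have hr := rf_pos (s := 2/3) (by norm_num) q
  have hr' := rf_pos (s := 1/3) (by norm_num) q
  refine ⟨h1.trans ?_, by positivity⟩
  rw [add_sub_cancel_left]
  have h3 : Cd * ((q:ℝ)+1)^k / a ≤ C0 * ((j:ℝ)+1)^k / L := small hc hL0 hca hq g1
  have h5 : 0 ≤ C0 * ((j:ℝ)+1)^k / L := by positivity
  calc _ ≤ C0 * ((j:ℝ)+1)^k / L * (((a:ℝ)/2)^(2*q) / (rf (1/3) q * (Nat.factorial q : ℝ))) :=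
        mul_le_mul_of_nonneg_right h3 (by positivity)
    _ ≤ _ := by
      apply mul_le_mul_of_nonneg_left _ h5
      have h4 : 0 ≤ ((a:ℝ)/2)^(2*q) * (3 * (q:ℝ) / (cK * (a:ℝ)^((2:ℝ)/3)) /
          (rf (2/3) q * (Nat.factorial q : ℝ))) := by positivity
      rw [mul_add, mul_one_div]
      linarith

lemma U {k : ℕ} (hk : 1 ≤ k) (hs : SE k) (hd : DE k) {c : ℝ} (hc : 0 < c) :
    ∃ C1 : ℝ, 0 ≤ C1 ∧ ∀ a b n j : ℕ, Even a → 2 ≤ a → Odd b → a + b ≤ 2*n →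
    c * (2*(n:ℝ)+1) ≤ a → c * (2*(n:ℝ)+1) ≤ b → 1 ≤ n → (j+1)^2 ≤ a → (j+1)^2 ≤ b →
    |((cd a b j * mj (2*n+1) j : ℚ) : ℝ) - (mainK j ((a:ℝ)/(2*n+1)) ((b:ℝ)/(2*n+1)) +
      (2*(n:ℝ)+1)^(-(2:ℝ)/3) * (corrK j ((a:ℝ)/(2*n+1)) ((b:ℝ)/(2*n+1)) +
        (2*(n:ℝ)+1)^(-(2:ℝ)/3) * restK j ((a:ℝ)/(2*n+1)) ((b:ℝ)/(2*n+1))))| ≤
    C1 * ((j:ℝ)+1)^(6*k) / (2*n+1) * (mainK j ((a:ℝ)/(2*n+1)) ((b:ℝ)/(2*n+1)) +
      (2*(n:ℝ)+1)^(-(2:ℝ)/3) * (corrK j ((a:ℝ)/(2*n+1)) ((b:ℝ)/(2*n+1)) +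
        (2*(n:ℝ)+1)^(-(2:ℝ)/3) * restK j ((a:ℝ)/(2*n+1)) ((b:ℝ)/(2*n+1)))) := by
  obtain ⟨Cs, hCs⟩ := hs
  obtain ⟨Cd, hCd⟩ := hd
  obtain ⟨CK, hCK⟩ := t_KE
  obtain ⟨CM, hCM⟩ := t_ME
  have cK0 := cK_pos
  have cM0 := cM_pos
  set C0 : ℝ := |Cd| / c + |Cs| / c + |CK / cK| / c + |CM / cM| / (1/3) + 2 + 8 * Real.exp 8
    with hC0
  have p1 : 0 ≤ |Cd| / c := by positivity
  have p2 : 0 ≤ |Cs| / c := by positivity
  have p3 : 0 ≤ |CK / cK| / c := by positivity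
  have p4 : 0 ≤ |CM / cM| / (1/3) := by positivity
  have p5 : 0 < 8 * Real.exp 8 := by positivity
  have hC00 : 0 ≤ C0 := by rw [hC0]; positivity
  refine ⟨6 * C0 * (1 + C0)^5, by positivity, ?_⟩
  intro a b n j ha ha2 hb hab hca hcb hn hja hjb
  set L : ℝ := 2*(n:ℝ)+1 with hL
  have hn' : (1:ℝ) ≤ n := by exact_mod_cast hn
  have hL0 : 0 < L := by rw [hL]; positivity
  have hL1 : 1 ≤ L := by rw [hL]; linarith
  have ha0 : 0 < (a:ℝ) := lt_of_lt_of_le (mul_pos hc hL0) hca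
  have hb0 : 0 < (b:ℝ) := lt_of_lt_of_le (mul_pos hc hL0) hcb
  have hj0 : (0:ℝ) ≤ j := Nat.cast_nonneg j
  have hjn : (j+1)^2 ≤ n := by omega
  -- the coefficients
  have rsb := N1.sv_rl hCs hCK hc hL0 hb hcb hjb (C0 := C0) (by linarith) (by linarith) hC00
  have rda := dv_rl hCd hc hL0 ha ha2 hca hja (C0 := C0) (by linarith) hC00
  set D : ℝ := C0 * ((j:ℝ)+1)^k / L with hD
  have hD0 : 0 ≤ D := by rw [hD]; positivity
  set e : ℝ := 1 + D with he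
  have he1 : 1 ≤ e := by rw [he]; linarith
  have hjk : (1:ℝ) ≤ ((j:ℝ)+1)^k := one_le_pow₀ (by linarith)
  have hjk2 : (j:ℝ) + 1 ≤ ((j:ℝ)+1)^k := by
    calc (j:ℝ) + 1 = ((j:ℝ)+1)^1 := (pow_one _).symm
      _ ≤ _ := pow_le_pow_right₀ (by linarith) hk
  have hM0 : 0 < ((M0 n : ℚ) : ℝ) := by exact_mod_cast M0_pos n
  -- the mass
  have rm : Rl (e * e) ((M0 n : ℚ) : ℝ) (cM * (L/2)^(-(2:ℝ)/3)) := by
    have hn0 : (0:ℝ) < n := by linarith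
    have h1 : Rl e ((M0 n : ℚ) : ℝ) (cM * (n:ℝ)^(-(2:ℝ)/3)) := by
      refine ⟨?_, by positivity⟩
      have h1 := hCM n hn
      rw [he, add_sub_cancel_left]
      refine h1.trans ?_
      have h2 : CM / cM * (((0:ℕ):ℝ)+1)^k / n ≤ D :=
        small (c := 1/3) (by norm_num) hL0 (by rw [hL]; linarith) (Nat.zero_le j) (by linarith)
      rw [Nat.cast_zero, zero_add, one_pow, mul_one] at h2
      calc CM * (n:ℝ)^(-(2:ℝ)/3) / n = CM / cM / n * (cM * (n:ℝ)^(-(2:ℝ)/3)) := by field_simp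
        _ ≤ _ := mul_le_mul_of_nonneg_right h2 (by positivity)
    refine h1.trans ?_ he1
    apply Rl.const _ cM0.le
    have hy0 : 0 < L/2 := by positivity
    refine ⟨?_, by positivity⟩
    have h2 : (n:ℝ)^(-(2:ℝ)/3) = (L/2)^(-(2:ℝ)/3) * ((L/2)/n)^((2:ℝ)/3) := by
      rw [Real.div_rpow hy0.le hn0.le, neg_div, Real.rpow_neg hy0.le, Real.rpow_neg hn0.le]
      have h3 : (L/2)^((2:ℝ)/3) ≠ 0 := (Real.rpow_pos_of_pos hy0 _).ne'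
      field_simp
    have h3 : 1 ≤ (L/2)/n := by
      rw [le_div_iff₀ hn0, hL]
      linarith
    have h4 : ((L/2)/n)^((2:ℝ)/3) ≤ (L/2)/n := by
      calc ((L/2)/n)^((2:ℝ)/3) ≤ ((L/2)/n)^(1:ℝ) :=
            Real.rpow_le_rpow_of_exponent_le h3 (by norm_num)
        _ = _ := Real.rpow_one _
    have h5 : 1 ≤ ((L/2)/n)^((2:ℝ)/3) := Real.one_le_rpow h3 (by norm_num)
    have h6 : (L/2)/n - 1 ≤ D := by
      have h7 : (L/2)/n - 1 = (1/2) / n := by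
        rw [hL]
        field_simp
        ring
      rw [h7]
      have h8 : (1/2 : ℝ) / n ≤ 2 / L := by
        rw [div_le_div_iff₀ hn0 hL0, hL]
        linarith
      refine h8.trans ?_
      rw [hD]
      apply div_le_div_of_nonneg_right _ hL0.le
      have h9 : (2:ℝ) ≤ C0 := by linarith
      calc (2:ℝ) ≤ C0 * 1 := by linarith
        _ ≤ C0 * ((j:ℝ)+1)^k := mul_le_mul_of_nonneg_left hjk hC00
    rw [h2]
    have e1 : (L/2)^(-(2:ℝ)/3) * ((L/2)/n)^((2:ℝ)/3) - (L/2)^(-(2:ℝ)/3) =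
        (((L/2)/n)^((2:ℝ)/3) - 1) * (L/2)^(-(2:ℝ)/3) := by ring
    rw [e1, abs_mul, abs_of_nonneg (by linarith), abs_of_nonneg (by positivity : (0:ℝ) ≤
      (L/2)^(-(2:ℝ)/3)), he, add_sub_cancel_left]
    apply mul_le_mul_of_nonneg_right _ (by positivity)
    linarith
  have rh : Rl e (4^j * ∏ i ∈ range j, ((hf n i : ℚ) : ℝ))
      (rf (1/3) j * rf (2/3) j / (L/2)^(2*j)) := by
    have h1 := H_rl hjn
    have h2 : (n:ℝ) + 1/2 = L/2 := by rw [hL]; ring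
    rw [h2, ← hL] at h1
    apply h1.mono
    rw [he, hD]
    have h3 : 8 * Real.exp 8 * j / L ≤ C0 * ((j:ℝ)+1)^k / L := by
      apply div_le_div_of_nonneg_right _ hL0.le
      have h4 : 8 * Real.exp 8 ≤ C0 := by linarith
      exact mul_le_mul h4 (by linarith) hj0 hC00
    linarith
  -- assembly
  have e1 : ((cd a b j * mj (2*n+1) j : ℚ) : ℝ) = ∑ p ∈ antidiagonal j,
      (((sv b).coeff p.1 : ℚ) : ℝ) * (((dv a).coeff p.2 : ℚ) : ℝ) *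
      (((M0 n : ℚ) : ℝ) * (4^j * ∏ i ∈ range j, ((hf n i : ℚ) : ℝ))) := by
    have hjn' : j ≤ n := by
      have h1 : j + 1 ≤ (j+1)^2 := Nat.le_self_pow two_ne_zero _
      omega
    rw [mj_eq t_MJ hjn']
    unfold cd
    rw [mul_comm (dv a) (sv b), Polynomial.coeff_mul, Finset.sum_mul, Rat.cast_sum]
    refine Finset.sum_congr rfl fun p _ => ?_
    push_cast
    ring
  have rt : Rl (((e * e) * e) * ((e * e) * e)) ((cd a b j * mj (2*n+1) j : ℚ) : ℝ)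
      (mainK j ((a:ℝ)/L) ((b:ℝ)/L) + L^(-(2:ℝ)/3) * (corrK j ((a:ℝ)/L) ((b:ℝ)/L) +
        L^(-(2:ℝ)/3) * restK j ((a:ℝ)/L) ((b:ℝ)/L))) := by
    rw [e1, ← Tm_eq ha0 hb0 hL0 j]
    apply Rl.sum
    intro p hp
    have hp' : p.1 + p.2 = j := by simpa using hp
    have hee : 1 ≤ e * e := one_le_mul_of_one_le_of_one_le he1 he1
    have h1 := (rsb p.1 (by omega)).mul (rda p.2 (by omega)) hee he1
    have h2 := rm.mul rh hee he1
    exact h1.mul h2 (one_le_mul_of_one_le_of_one_le hee he1)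
      (one_le_mul_of_one_le_of_one_le hee he1)
  refine rt.1.trans ?_
  apply mul_le_mul_of_nonneg_right _ rt.2
  have h1 := last k hD hC00 hjk (by linarith) hL1
  rw [← he] at h1
  have e9 : e * e * e * (e * e * e) - 1 = e * (e * e) * (e * e * e) - 1 := by ring
  rw [e9]
  exact h1

end Pool.Agent.H966.N3
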