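import Pool.Agent.H966.N3.Ra
import Pool.Graph.R_pool_sql_team_seeded_3dad9d7b.NH38.Fork.UG

set_option autoImplicit false

/-!
# The sharp rate for the union of the two walls of the left arm: monotonicity, limits, sums
(helper966). Adapted from `NH38.Fork.R4` (helper81).
-/

namespace Pool.Agent.H966.N3

open Polynomial Filter Topology Finset
open Pool.Agent.NH38.Step (cardy)
open Pool.Agent.NH38.Fork
open Pool.Agent.NH38.Fork.R4 (Rl SE small cK_pos cM_pos rf_pos exp_le Bt_pos)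
open Pool.Agent.H965.K3 (dv FK ap3 cd S3_F4)
open Pool.Agent.H966.N1 (sq_le_scale two_thirds cR_pos)

/-- a homogeneous polynomial -/
noncomputable def gp (w : ℕ → ℕ → ℝ) (A B : ℝ) (m : ℕ) : ℝ :=
  ∑ i ∈ Finset.range (m+1), w m i * B^i * A^(m-i)

section

variable {w : ℕ → ℕ → ℝ} (hw : ∀ m i, 0 ≤ w m i)
include hw

lemma gp_nonneg {A B : ℝ} (hA : 0 ≤ A) (hB : 0 ≤ B) (m : ℕ) : 0 ≤ gp w A B m := by
  unfold gp
  refine Finset.sum_nonneg fun i _ => ?_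
  have := hw m i
  positivity

lemma gp_mono {A B A' B' : ℝ} (hA : 0 ≤ A) (hB : 0 ≤ B) (hAA : A ≤ A') (hBB : B ≤ B') (m : ℕ) :
    gp w A B m ≤ gp w A' B' m := by
  unfold gp
  refine Finset.sum_le_sum fun i _ => ?_
  have := hw m i
  have hB' : 0 ≤ B' := hB.trans hBB
  gcongr

omit hw in
lemma gp_scale (w : ℕ → ℕ → ℝ) (A B t : ℝ) (m : ℕ) :
    gp w (t * A) (t * B) m = t^m * gp w A B m := by
  unfold gp
  rw [Finset.mul_sum]
  refine Finset.sum_congr rfl fun i hi => ?_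
  have h1 : t^m = t^i * t^(m-i) := by
    rw [← pow_add]
    congr 1
    rw [mem_range] at hi
    omega
  rw [h1, mul_pow, mul_pow]
  ring

lemma gp_le_scale (j : ℕ) {x y x' y' s : ℝ} (hx : 0 ≤ x) (hy : 0 ≤ y) (hs : 0 ≤ s) (hs1 : s ≤ 1)
    (hxx : x ≤ s * x') (hyy : y ≤ s * y') :
    gp w (x^2) (y^2) j ≤ s^j * gp w (x'^2) (y'^2) j := by
  calc gp w (x^2) (y^2) j ≤ gp w (s^2 * x'^2) (s^2 * y'^2) j :=
        gp_mono hw (sq_nonneg _) (sq_nonneg _) (sq_le_scale hx hxx) (sq_le_scale hy hyy) j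
    _ = (s^2)^j * gp w (x'^2) (y'^2) j := gp_scale w _ _ _ j
    _ ≤ _ := by
      apply mul_le_mul_of_nonneg_right _ (gp_nonneg hw (sq_nonneg _) (sq_nonneg _) j)
      apply pow_le_pow_left₀ (by positivity)
      nlinarith

omit hw in
lemma gp_lim (w : ℕ → ℕ → ℝ) (j : ℕ) {x y : ℕ → ℝ} {X Y : ℝ} (hx : Tendsto x atTop (𝓝 X))
    (hy : Tendsto y atTop (𝓝 Y)) :
    Tendsto (fun i => gp w ((x i)^2) ((y i)^2) j) atTop (𝓝 (gp w (X^2) (Y^2) j)) := by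
  unfold gp
  refine tendsto_finsetSum _ fun i _ => ?_
  exact (tendsto_const_nhds.mul ((hy.pow 2).pow i)).mul ((hx.pow 2).pow (j - i))

end

noncomputable def w0 (m i : ℕ) : ℝ := rf (1/3) m * rf (2/3) m / (rf (4/3) i *
  (Nat.factorial i : ℝ) * (rf (1/3) (m-i) * (Nat.factorial (m-i) : ℝ)))

noncomputable def w1 (m i : ℕ) : ℝ := rf (1/3) m * rf (2/3) m / (rf (2/3) i *
  (Nat.factorial i : ℝ) * (rf (1/3) (m-i) * (Nat.factorial (m-i) : ℝ)))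

noncomputable def w2 (m i : ℕ) : ℝ := ((m - i : ℕ) : ℝ) * (rf (1/3) m * rf (2/3) m / (rf (4/3) i *
  (Nat.factorial i : ℝ) * (rf (2/3) (m-i) * (Nat.factorial (m-i) : ℝ))))

noncomputable def w3 (m i : ℕ) : ℝ := ((m - i : ℕ) : ℝ) * (rf (1/3) m * rf (2/3) m / (rf (2/3) i *
  (Nat.factorial i : ℝ) * (rf (2/3) (m-i) * (Nat.factorial (m-i) : ℝ))))

lemma w0_nonneg (m i : ℕ) : 0 ≤ w0 m i := by
  unfold w0
  have h1 := rf_pos (s := 1/3) (by norm_num) m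
  have h2 := rf_pos (s := 2/3) (by norm_num) m
  have h3 := rf_pos (s := 4/3) (by norm_num) i
  have h4 := rf_pos (s := 1/3) (by norm_num) (m - i)
  positivity

lemma w1_nonneg (m i : ℕ) : 0 ≤ w1 m i := by
  unfold w1
  have h1 := rf_pos (s := 1/3) (by norm_num) m
  have h2 := rf_pos (s := 2/3) (by norm_num) m
  have h3 := rf_pos (s := 2/3) (by norm_num) i
  have h4 := rf_pos (s := 1/3) (by norm_num) (m - i)
  positivity

lemma w2_nonneg (m i : ℕ) : 0 ≤ w2 m i := by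
  unfold w2
  have h1 := rf_pos (s := 1/3) (by norm_num) m
  have h2 := rf_pos (s := 2/3) (by norm_num) m
  have h3 := rf_pos (s := 4/3) (by norm_num) i
  have h4 := rf_pos (s := 2/3) (by norm_num) (m - i)
  positivity

lemma w3_nonneg (m i : ℕ) : 0 ≤ w3 m i := by
  unfold w3
  have h1 := rf_pos (s := 1/3) (by norm_num) m
  have h2 := rf_pos (s := 2/3) (by norm_num) m
  have h3 := rf_pos (s := 2/3) (by norm_num) i
  have h4 := rf_pos (s := 2/3) (by norm_num) (m - i)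
  positivity

lemma ap3_gp (A B : ℝ) (m : ℕ) : ap3 A B m = gp w0 A B m := rfl

lemma c1_gp (A B : ℝ) (m : ℕ) : c1 A B m = gp w1 A B m := rfl

lemma c2_gp (A B : ℝ) (m : ℕ) : c2 A B m = gp w2 A B m := rfl

lemma c3_gp (A B : ℝ) (m : ℕ) : c3 A B m = gp w3 A B m := rfl

lemma rf_cmp' (j : ℕ) : rf (1/3) j ≤ rf (2/3) j := by
  unfold rf
  apply Finset.prod_le_prod
  · intro i _
    positivity
  · intro i _
    linarith

lemma c3_le {A B : ℝ} (hA : 0 ≤ A) (hB : 0 ≤ B) (m : ℕ) : c3 A B m ≤ ((m:ℝ)+1) * c1 A B m := by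
  unfold c3 c1
  rw [Finset.mul_sum]
  refine Finset.sum_le_sum fun i hi => ?_
  have h1 := rf_pos (s := 1/3) (by norm_num) m
  have h2 := rf_pos (s := 2/3) (by norm_num) m
  have h3 := rf_pos (s := 2/3) (by norm_num) i
  have h4 := rf_pos (s := 2/3) (by norm_num) (m - i)
  have h5 := rf_pos (s := 1/3) (by norm_num) (m - i)
  have h6 := rf_cmp' (m - i)
  have h7 : ((m - i : ℕ) : ℝ) ≤ (m:ℝ) + 1 := by
    have : ((m - i : ℕ) : ℝ) ≤ m := by exact_mod_cast Nat.sub_le m i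
    linarith
  have h9 : (1:ℝ) / rf (2/3) (m-i) ≤ 1 / rf (1/3) (m-i) := one_div_le_one_div_of_le h5 h6
  have hm : (0:ℝ) < (m:ℝ) + 1 := by positivity
  have h10 : ((m - i : ℕ) : ℝ) * (1 / rf (2/3) (m-i)) ≤ ((m:ℝ)+1) * (1 / rf (1/3) (m-i)) :=
    mul_le_mul h7 h9 (by positivity) hm.le
  calc _ = (rf (1/3) m * rf (2/3) m / (rf (2/3) i * (Nat.factorial i : ℝ) *
        (Nat.factorial (m-i) : ℝ)) * B^i * A^(m-i)) *
          (((m - i : ℕ) : ℝ) * (1 / rf (2/3) (m-i))) := by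
        field_simp
    _ ≤ (rf (1/3) m * rf (2/3) m / (rf (2/3) i * (Nat.factorial i : ℝ) *
        (Nat.factorial (m-i) : ℝ)) * B^i * A^(m-i)) * (((m:ℝ)+1) * (1 / rf (1/3) (m-i))) :=
        mul_le_mul_of_nonneg_left h10 (by positivity)
    _ = _ := by
        field_simp

lemma mainK_nonneg (j : ℕ) {x y : ℝ} (_hx : 0 ≤ x) (hy : 0 ≤ y) : 0 ≤ mainK j x y := by
  unfold mainK
  have := Bt_pos
  rw [ap3_gp]
  have := gp_nonneg w0_nonneg (sq_nonneg x) (sq_nonneg y) j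
  positivity

lemma corrK_nonneg (j : ℕ) {x y : ℝ} (hx : 0 ≤ x) (hy : 0 ≤ y) : 0 ≤ corrK j x y := by
  unfold corrK
  have := cM_pos
  rw [c1_gp, c2_gp]
  have := gp_nonneg w1_nonneg (sq_nonneg x) (sq_nonneg y) j
  have := gp_nonneg w2_nonneg (sq_nonneg x) (sq_nonneg y) j
  positivity

lemma restK_nonneg (j : ℕ) {x y : ℝ} (hx : 0 ≤ x) : 0 ≤ restK j x y := by
  unfold restK
  have := cM_pos
  have := cK_pos
  rw [c3_gp]
  have := gp_nonneg w3_nonneg (sq_nonneg x) (sq_nonneg y) j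
  positivity

lemma mainK_le (j : ℕ) {x y x' y' s : ℝ} (hx : 0 ≤ x) (hy : 0 ≤ y) (hs : 0 ≤ s) (hs1 : s ≤ 1)
    (hxx : x ≤ s * x') (hyy : y ≤ s * y') (hy' : 0 ≤ y') :
    mainK j x y ≤ s^j * mainK j x' y' := by
  unfold mainK
  rw [ap3_gp, ap3_gp]
  have hB := Bt_pos
  have g2 : y ≤ y' := hyy.trans (by
    have : s * y' ≤ 1 * y' := mul_le_mul_of_nonneg_right hs1 hy'
    linarith)
  have h1 : (2*y)^((2:ℝ)/3) ≤ (2*y')^((2:ℝ)/3) :=
    Real.rpow_le_rpow (by positivity) (by linarith) (by norm_num)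
  have h2 := gp_le_scale w0_nonneg j hx hy hs hs1 hxx hyy
  calc (2*y)^((2:ℝ)/3) * (3 / Bt) * gp w0 (x^2) (y^2) j
      ≤ (2*y')^((2:ℝ)/3) * (3 / Bt) * (s^j * gp w0 (x'^2) (y'^2) j) := by
        apply mul_le_mul (mul_le_mul_of_nonneg_right h1 (by positivity)) h2
          (gp_nonneg w0_nonneg (sq_nonneg _) (sq_nonneg _) j) (by positivity)
    _ = _ := by ring

/-- the majorant of the correction -/
noncomputable def corB (c : ℝ) (j : ℕ) (x' y' : ℝ) : ℝ :=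
  (2:ℝ)^((2:ℝ)/3) * cM * (c1 (x'^2) (y'^2) j + 3 * (1/c)^((2:ℝ)/3) * c2 (x'^2) (y'^2) j)

lemma corrK_le (j : ℕ) {x y x' y' s c : ℝ} (hc : 0 < c) (hcx : c ≤ x) (hy : 0 ≤ y) (hy1 : y ≤ 1)
    (hs : 0 ≤ s) (hs1 : s ≤ 1) (hxx : x ≤ s * x') (hyy : y ≤ s * y') :
    corrK j x y ≤ s^j * corB c j x' y' := by
  have hx : 0 < x := lt_of_lt_of_le hc hcx
  unfold corrK corB
  rw [c1_gp, c2_gp, c1_gp, c2_gp]
  have hM := cM_pos
  have b1 := gp_le_scale w1_nonneg j hx.le hy hs hs1 hxx hyy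
  have b2 := gp_le_scale w2_nonneg j hx.le hy hs hs1 hxx hyy
  have n2 := gp_nonneg w2_nonneg (sq_nonneg x) (sq_nonneg y) j
  have h1 : (y/x)^((2:ℝ)/3) ≤ (1/c)^((2:ℝ)/3) := by
    apply Real.rpow_le_rpow (by positivity) _ (by norm_num)
    exact div_le_div₀ zero_le_one hy1 hc hcx
  have h2 : 3 * (y/x)^((2:ℝ)/3) * gp w2 (x^2) (y^2) j ≤
      3 * (1/c)^((2:ℝ)/3) * (s^j * gp w2 (x'^2) (y'^2) j) :=
    mul_le_mul (by linarith) b2 n2 (by positivity)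
  calc _ ≤ (2:ℝ)^((2:ℝ)/3) * cM * (s^j * gp w1 (x'^2) (y'^2) j +
        3 * (1/c)^((2:ℝ)/3) * (s^j * gp w2 (x'^2) (y'^2) j)) :=
        mul_le_mul_of_nonneg_left (add_le_add b1 h2) (by positivity)
    _ = _ := by ring

/-- the majorant of the second correction -/
noncomputable def resB (c : ℝ) (j : ℕ) (x' y' : ℝ) : ℝ :=
  (2:ℝ)^((2:ℝ)/3) * cM * (3 / (cK * c^((2:ℝ)/3))) * c1 (x'^2) (y'^2) j

lemma restK_le (j : ℕ) {x y x' y' s c : ℝ} (hc : 0 < c) (hcx : c ≤ x) (hy : 0 ≤ y)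
    (hs : 0 ≤ s) (hs1 : s ≤ 1) (hxx : x ≤ s * x') (hyy : y ≤ s * y') :
    restK j x y ≤ ((j:ℝ)+1) * (s^j * resB c j x' y') := by
  have hx : 0 < x := lt_of_lt_of_le hc hcx
  unfold restK resB
  have hM := cM_pos
  have hK := cK_pos
  have h1 := c3_le (sq_nonneg x) (sq_nonneg y) j
  have b1 := gp_le_scale w1_nonneg j hx.le hy hs hs1 hxx hyy
  rw [← c1_gp, ← c1_gp] at b1
  have h2 : c^((2:ℝ)/3) ≤ x^((2:ℝ)/3) := Real.rpow_le_rpow hc.le hcx (by norm_num)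
  have hc3 : 0 < c^((2:ℝ)/3) := by positivity
  have h3 : 3 / (cK * x^((2:ℝ)/3)) ≤ 3 / (cK * c^((2:ℝ)/3)) := by
    apply div_le_div_of_nonneg_left (by norm_num) (by positivity)
    exact mul_le_mul_of_nonneg_left h2 hK.le
  have hj : (0:ℝ) ≤ (j:ℝ) + 1 := by positivity
  have n1 : 0 ≤ c3 (x^2) (y^2) j := by
    rw [c3_gp]
    exact gp_nonneg w3_nonneg (sq_nonneg x) (sq_nonneg y) j
  calc _ ≤ (2:ℝ)^((2:ℝ)/3) * cM * (3 / (cK * c^((2:ℝ)/3))) *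
        (((j:ℝ)+1) * (s^j * c1 (x'^2) (y'^2) j)) := by
        apply mul_le_mul (mul_le_mul_of_nonneg_left h3 (by positivity)) _ n1 (by positivity)
        exact h1.trans (mul_le_mul_of_nonneg_left b1 hj)
    _ = _ := by ring

lemma mainK_lim (j : ℕ) {x y : ℕ → ℝ} {X Y : ℝ} (hx : Tendsto x atTop (𝓝 X))
    (hy : Tendsto y atTop (𝓝 Y)) :
    Tendsto (fun i => mainK j (x i) (y i)) atTop (𝓝 (mainK j X Y)) := by
  unfold mainK
  refine Tendsto.mul (Tendsto.mul ?_ tendsto_const_nhds) (gp_lim w0 j hx hy)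
  exact (hy.const_mul 2).rpow_const (Or.inr (by norm_num))

lemma corrK_lim (j : ℕ) {x y : ℕ → ℝ} {X Y : ℝ} (hX : 0 < X) (hx : Tendsto x atTop (𝓝 X))
    (hy : Tendsto y atTop (𝓝 Y)) :
    Tendsto (fun i => corrK j (x i) (y i)) atTop (𝓝 (corrK j X Y)) := by
  unfold corrK
  refine Tendsto.mul tendsto_const_nhds (Tendsto.add (gp_lim w1 j hx hy)
    (Tendsto.mul (Tendsto.mul tendsto_const_nhds ?_) (gp_lim w2 j hx hy)))
  exact (hy.div hx hX.ne').rpow_const (Or.inr (by norm_num))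

lemma restK_lim (j : ℕ) {x y : ℕ → ℝ} {X Y : ℝ} (hX : 0 < X) (hx : Tendsto x atTop (𝓝 X))
    (hy : Tendsto y atTop (𝓝 Y)) :
    Tendsto (fun i => restK j (x i) (y i)) atTop (𝓝 (restK j X Y)) := by
  unfold restK
  have hK := cK_pos
  refine Tendsto.mul (Tendsto.mul tendsto_const_nhds ?_) (gp_lim w3 j hx hy)
  refine Tendsto.div tendsto_const_nhds ?_ (by positivity)
  exact Tendsto.mul tendsto_const_nhds (hx.rpow_const (Or.inr (by norm_num)))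

/-! ### sums -/

lemma mainK_sum (hF4 : S3_F4) {x y : ℝ} (hx : 0 < x) (hy : 0 < y) (hxy : x + y < 1) :
    HasSum (fun j => mainK j x y) (2 * Gk x y) := hF4 x y hx hy hxy

lemma sum_c1 (h1 : S_c1) {x y : ℝ} (hx : 0 < x) (hy : 0 < y) (hxy : x + y < 1) :
    HasSum (fun j => c1 (x^2) (y^2) j) ((1 - x1 (x^2) (y^2))^((1:ℝ)/3) *
      (x2 (x^2) (y^2))^((2:ℝ)/3) / (x2 (x^2) (y^2) - x1 (x^2) (y^2))) :=
  h1 (x^2) (y^2) (by positivity) (by positivity)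
    (by rw [Real.sqrt_sq hx.le, Real.sqrt_sq hy.le]; exact hxy)

lemma sum_c2 (h2 : S_c2) {x y : ℝ} (hx : 0 < x) (hy : 0 < y) (hxy : x + y < 1) :
    HasSum (fun j => c2 (x^2) (y^2) j) (1/3 * x1 (x^2) (y^2) * (x2 (x^2) (y^2))^((1:ℝ)/3) *
      (1 - x1 (x^2) (y^2))^(-(1:ℝ)/3) / (x2 (x^2) (y^2) - x1 (x^2) (y^2))) :=
  h2 (x^2) (y^2) (by positivity) (by positivity)
    (by rw [Real.sqrt_sq hx.le, Real.sqrt_sq hy.le]; exact hxy)

lemma corrK_sum (h1 : S_c1) (h2 : S_c2) {x y : ℝ} (hx : 0 < x) (hy : 0 < y) (hxy : x + y < 1) :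
    HasSum (fun j => corrK j x y) (2 * Qk x y) := by
  obtain ⟨r1, r2, r3, r4, r5⟩ := UGC.roots hx hy hxy
  have h3 := ((sum_c1 h1 hx hy hxy).add
    ((sum_c2 h2 hx hy hxy).mul_left (3 * (y/x)^((2:ℝ)/3)))).mul_left ((2:ℝ)^((2:ℝ)/3) * cM)
  unfold Qk
  set u := x1 (x^2) (y^2)
  set v := x2 (x^2) (y^2)
  have hu1 : 0 < 1 - u := by linarith
  have hv0 : 0 < v := by linarith
  have hv1 : 0 < 1 - v := by linarith
  have hvu : 0 < v - u := by linarith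
  have e1 := two_thirds hx r1 hv0 r4
  have e2 := two_thirds hy hu1 hv1 r5
  have e0 : (y/x)^((2:ℝ)/3) = ((1-u)^((1:ℝ)/3) * (1-v)^((1:ℝ)/3)) /
      (u^((1:ℝ)/3) * v^((1:ℝ)/3)) := by
    rw [Real.div_rpow hy.le hx.le, e1, e2]
  have e4 : (1-u)^(-(1:ℝ)/3) = ((1-u)^((1:ℝ)/3))⁻¹ := by
    rw [neg_div, Real.rpow_neg hu1.le]
  have e5 : u = u^((1:ℝ)/3) * u^((2:ℝ)/3) := by
    rw [← Real.rpow_add r1]; norm_num
  have e7 : (2:ℝ)^((2:ℝ)/3) * cM = 2 * cR := by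
    unfold cR
    have e8 : (2:ℝ)^((2:ℝ)/3) = 2 * (2:ℝ)^(-(1:ℝ)/3) := by
      have := Real.rpow_add (show (0:ℝ) < 2 by norm_num) 1 (-(1:ℝ)/3)
      rw [Real.rpow_one] at this
      rw [← this]
      norm_num
    rw [e8]; ring
  have p1 : 0 < (1-u)^((1:ℝ)/3) := by positivity
  have p2 : 0 < u^((1:ℝ)/3) := by positivity
  have p3 : 0 < v^((1:ℝ)/3) := by positivity
  have key : 2 * (cR * (((1 - u)^((1:ℝ)/3) * v^((2:ℝ)/3) +
      (1 - v)^((1:ℝ)/3) * u^((2:ℝ)/3)) / (v - u))) =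
      (2:ℝ)^((2:ℝ)/3) * cM * ((1 - u)^((1:ℝ)/3) * v^((2:ℝ)/3) / (v - u) +
        3 * (y/x)^((2:ℝ)/3) * (1/3 * u * v^((1:ℝ)/3) * (1-u)^(-(1:ℝ)/3) / (v - u))) := by
    rw [e7, e0, e4]
    have e9 : 3 * (((1-u)^((1:ℝ)/3) * (1-v)^((1:ℝ)/3)) / (u^((1:ℝ)/3) * v^((1:ℝ)/3))) *
        (1/3 * u * v^((1:ℝ)/3) * ((1-u)^((1:ℝ)/3))⁻¹ / (v - u)) =
        (1-v)^((1:ℝ)/3) * u^((2:ℝ)/3) / (v - u) := by
      calc _ = ((1-u)^((1:ℝ)/3) * ((1-u)^((1:ℝ)/3))⁻¹) * (v^((1:ℝ)/3) / v^((1:ℝ)/3)) *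
            ((1-v)^((1:ℝ)/3) * (u / u^((1:ℝ)/3)) / (v - u)) := by
            field_simp
        _ = _ := by
            rw [mul_inv_cancel₀ p1.ne', div_self p3.ne']
            have e10 : u / u^((1:ℝ)/3) = u^((2:ℝ)/3) := by
              rw [div_eq_iff p2.ne', mul_comm]
              exact e5
            rw [e10]
            ring
    rw [e9]
    ring
  rw [key]
  exact h3

end Pool.Agent.H966.N3
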