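import Pool.Agent.H966.N3.Rc

set_option autoImplicit false

/-!
# The sharp rate for the union of the two walls of the left arm (helper966), the theorem for odd
total width. Adapted from `NH38.Fork.R4` (helper81).
-/

namespace Pool.Agent.H966.N3

open Polynomial Filter Topology Finset
open Pool.Agent.NH38.Step (cardy)
open Pool.Agent.NH38.Fork
open Pool.Agent.NH38.Fork.NG5 (hf mj_eq M0_pos kap_pos hf_nonneg mj_nonneg mj_le)
open Pool.Agent.NH38.Fork.R4 (Rl SE small cK_pos cM_pos rf_pos exp_le Bt_pos)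
open Pool.Agent.H965.K3 (dv FK ap3 cd S3_F4 S3_pos S3_FKle)

/-- the sharp rate, `a` even, `b` odd, odd total width -/
theorem rate (hF4 : S3_F4) (hdp : S3_pos) (hb1 : S3_FKle) (hc1 : S_c1) (hc2 : S_c2)
    {k : ℕ} (hk : 1 ≤ k) (hs : SE k) (hd : DE k) : S_Rate3 := by
  intro a b N ρ σ hρ hσ hρσ ha ha2 hb hN habN hNt hla hlb
  have hpos := t_pos
  -- `N = 2n+1`
  choose n hn using hN
  have hN2 : ∀ i, N i = 2 * n i + 1 := hn
  have hab : ∀ i, a i + b i + 1 = 2 * ((a i + b i + 1) / 2) := fun i => by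
    obtain ⟨x, hx⟩ := ha i
    obtain ⟨y, hy⟩ := hb i
    omega
  set n0 : ℕ → ℕ := fun i => (a i + b i + 1) / 2 with hn0
  have hab' : ∀ i, a i + b i + 1 = 2 * n0 i := hab
  have hnn : ∀ i, n0 i ≤ n i := fun i => by
    have := habN i; have := hN2 i; have := hab' i; omega
  have hN4 : ∀ i, 4 ≤ N i := fun i => by
    have h1 := ha2 i
    have h2 := (hb i).pos
    have h3 := hnn i
    have h4 := hab' i
    have h5 := hN2 i
    omega
  have hNr : ∀ i, ((N i : ℕ) : ℝ) = 2 * (n i : ℝ) + 1 := fun i => by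
    rw [hN2 i]
    push_cast
    ring
  have hNt' : Tendsto (fun i => ((N i : ℕ) : ℝ)) atTop atTop :=
    tendsto_natCast_atTop_atTop.comp hNt
  have hNpos : ∀ i, (0:ℝ) < N i := fun i => by
    have : 0 < N i := by have := hN4 i; omega
    exact_mod_cast this
  have hN1 : ∀ i, (1:ℝ) ≤ N i := fun i => by
    have : 1 ≤ N i := by have := hN4 i; omega
    exact_mod_cast this
  have ha0 : ∀ i, (0:ℝ) < a i := fun i => by
    have : 0 < a i := by have := ha2 i; omega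
    exact_mod_cast this
  have hb0 : ∀ i, (0:ℝ) < b i := fun i => by exact_mod_cast (hb i).pos
  -- the bound `r`
  set r : ℝ := (1 + (ρ + σ)) / 2 with hr
  have hr1 : r < 1 := by rw [hr]; linarith
  have hr0 : 0 < r := by rw [hr]; linarith
  set ε : ℝ := (1 - (ρ + σ)) / 8 with hε
  have hε0 : 0 < ε := by rw [hε]; linarith
  set ρ' : ℝ := (ρ + ε) / r with hρ'
  set σ' : ℝ := (σ + ε) / r with hσ'
  have hρ'0 : 0 < ρ' := by positivity
  have hσ'0 : 0 < σ' := by positivity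
  have hρσ' : ρ' + σ' < 1 := by
    rw [hρ', hσ', ← add_div, div_lt_one hr0, hr, hε]
    linarith
  have hrρ : r * ρ' = ρ + ε := by rw [hρ']; field_simp
  have hrσ : r * σ' = σ + ε := by rw [hσ']; field_simp
  set c : ℝ := min ρ σ / 2 with hc
  have hmin : 0 < min ρ σ := lt_min hρ hσ
  have hc0 : 0 < c := by rw [hc]; linarith
  have hcρ : c < ρ := by
    have := min_le_left ρ σ
    rw [hc]; linarith
  have hcσ : c < σ := by
    have := min_le_right ρ σ
    rw [hc]; linarith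
  -- eventual properties
  have ev : ∀ᶠ i in atTop, (a i : ℝ) / N i < ρ + ε ∧ (b i : ℝ) / N i < σ + ε ∧
      c < (a i : ℝ) / N i ∧ c < (b i : ℝ) / N i ∧ (36:ℝ) ≤ N i ∧
      2 * (n0 i : ℝ) - 1 ≤ r * (2 * n i - 1) := by
    have hcN : Tendsto (fun i => 2 / (N i : ℝ)) atTop (𝓝 0) :=
      Tendsto.div_atTop tendsto_const_nhds hNt'
    have g1 : Tendsto (fun i => ((a i : ℝ) / N i + (b i : ℝ) / N i) + 2 / (N i : ℝ)) atTop
        (𝓝 ((ρ+σ) + 0)) := (hla.add hlb).add hcN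
    have g2 : (ρ+σ) + 0 < r := by rw [hr]; linarith
    filter_upwards [hla.eventually (gt_mem_nhds (by linarith : ρ < ρ + ε)),
      hlb.eventually (gt_mem_nhds (by linarith : σ < σ + ε)),
      hla.eventually (lt_mem_nhds hcρ), hlb.eventually (lt_mem_nhds hcσ),
      hNt'.eventually_ge_atTop 36,
      g1.eventually (gt_mem_nhds g2)]
      with i q1 q2 q3 q4 q5 q8
    refine ⟨q1, q2, q3, q4, q5, ?_⟩
    rw [← add_div, ← add_div, div_lt_iff₀ (hNpos i)] at q8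
    have h3 : (a i : ℝ) + b i + 1 = 2 * n0 i := by exact_mod_cast hab' i
    have h4 : (a i : ℝ) + b i + 2 = 2 * n0 i + 1 := by linarith
    rw [h4, hNr i] at q8
    nlinarith
  -- the terms
  let t : ℕ → ℕ → ℝ := fun i j => if j < n0 i then
    ((cd (a i) (b i) j * mj (N i) j : ℚ) : ℝ) else 0
  have hcg : ∀ x y j, Even x → 0 ≤ cd x y j := by
    intro x y j hx
    unfold cd
    rw [Polynomial.coeff_mul]
    exact Finset.sum_nonneg fun p _ => mul_nonneg (hdp x p.1 hx) (hpos y p.2).2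
  have hsum : ∀ i, HasSum (t i) (2 * ((FK (a i) (b i) (N i) : ℚ) : ℝ)) := by
    intro i
    have h1 : HasSum (t i) (∑ j ∈ range (n0 i), t i j) := by
      apply hasSum_sum_of_ne_finset_zero
      intro j hj
      simp only [t]
      rw [if_neg (by rwa [mem_range] at hj)]
    have h2 : ∑ j ∈ range (n0 i), t i j = 2 * ((FK (a i) (b i) (N i) : ℚ) : ℝ) := by
      unfold FK
      push_cast
      rw [mul_div_cancel₀ _ (by norm_num : (2:ℝ) ≠ 0)]
      refine Finset.sum_congr rfl fun j hj => ?_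
      simp only [t]
      rw [if_pos (mem_range.mp hj)]
      push_cast
      rfl
    rwa [h2] at h1
  have hbd0 : ∀ i j, j < n0 i →
      ((cd (a i) (b i) j * mj (2 * n0 i + 1) j : ℚ) : ℝ) ≤ 2 := by
    intro i j hj
    have h1 := hb1 (a i) (b i) (ha i) (ha2 i) (hb i)
    unfold FK at h1
    have e1 : a i + b i + 2 = 2 * n0 i + 1 := by have := hab' i; omega
    rw [e1, hab' i, Nat.mul_div_cancel_left _ (by norm_num : 0 < 2)] at h1
    have h2 := Finset.single_le_sum (f := fun j => cd (a i) (b i) j * mj (2 * n0 i + 1) j)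
      (s := range (n0 i)) (fun l hl => mul_nonneg (hcg _ _ _ (ha i)) (mj_nonneg t_MJ
        (by rw [mem_range] at hl; omega))) (mem_range.mpr hj)
    have h3 : cd (a i) (b i) j * mj (2 * n0 i + 1) j ≤ 2 := by
      linarith
    exact_mod_cast h3
  have ht0 : ∀ i j, 0 ≤ t i j := by
    intro i j
    simp only [t]
    split_ifs with hj
    · have h3 : (0:ℝ) ≤ ((cd (a i) (b i) j : ℚ) : ℝ) := by exact_mod_cast hcg _ _ _ (ha i)
      have h4 : (0:ℝ) ≤ ((mj (N i) j : ℚ) : ℝ) := by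
        rw [hN2 i]
        exact_mod_cast mj_nonneg t_MJ (hj.le.trans (hnn i))
      push_cast
      exact mul_nonneg h3 h4
    · exact le_rfl
  have htr : ∀ i, 2 * (n0 i : ℝ) - 1 ≤ r * (2 * n i - 1) → ∀ j, t i j ≤ 2 * r^j := by
    intro i hi j
    by_cases hj : j < n0 i
    · simp only [t]
      rw [if_pos hj, hN2 i]
      have h1 := mj_le t_MJ hj.le (hnn i) hi hr0.le hr1.le
      have h2 := hbd0 i j hj
      have h3 : (0:ℝ) ≤ ((cd (a i) (b i) j : ℚ) : ℝ) := by exact_mod_cast hcg _ _ _ (ha i)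
      push_cast at h2 ⊢
      calc _ ≤ ((cd (a i) (b i) j : ℚ) : ℝ) * (r^j * ((mj (2*n0 i+1) j : ℚ) : ℝ)) :=
            mul_le_mul_of_nonneg_left h1 h3
        _ = r^j * (((cd (a i) (b i) j : ℚ) : ℝ) * ((mj (2*n0 i+1) j : ℚ) : ℝ)) := by ring
        _ ≤ r^j * 2 := mul_le_mul_of_nonneg_left h2 (by positivity)
        _ = _ := by ring
    · simp only [t]
      rw [if_neg hj]
      positivity
  -- the uniform estimate
  obtain ⟨C1, hC1, hU⟩ := U hk hs hd hc0
  set m : ℕ → ℕ → ℝ := fun i j => mainK j ((a i : ℝ) / N i) ((b i : ℝ) / N i) with hm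
  set q : ℕ → ℕ → ℝ := fun i j => corrK j ((a i : ℝ) / N i) ((b i : ℝ) / N i) +
    (N i : ℝ)^(-(2:ℝ)/3) * restK j ((a i : ℝ) / N i) ((b i : ℝ) / N i) with hq
  have hx0 : ∀ i, 0 ≤ (a i : ℝ) / N i := fun i => (div_pos (ha0 i) (hNpos i)).le
  have hy0 : ∀ i, 0 ≤ (b i : ℝ) / N i := fun i => (div_pos (hb0 i) (hNpos i)).le
  have hneg1 : ∀ i, (N i : ℝ)^(-(2:ℝ)/3) ≤ 1 := fun i =>
    Real.rpow_le_one_of_one_le_of_nonpos (hN1 i) (by norm_num)
  have hneg0 : ∀ i, 0 ≤ (N i : ℝ)^(-(2:ℝ)/3) := fun i => Real.rpow_nonneg (hNpos i).le _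
  have hm0 : ∀ i j, 0 ≤ m i j := fun i j => mainK_nonneg j (hx0 i) (hy0 i)
  have hq0 : ∀ i j, 0 ≤ q i j := fun i j =>
    add_nonneg (corrK_nonneg j (hx0 i) (hy0 i)) (mul_nonneg (hneg0 i) (restK_nonneg j (hx0 i)))
  have hsqrt : ∀ i, (N i : ℝ)^((2:ℝ)/3) * (N i : ℝ)^(-(2:ℝ)/3) = 1 := fun i => by
    rw [← Real.rpow_add (hNpos i)]
    norm_num
  have hpw : ∀ i, (N i : ℝ)^((2:ℝ)/3) ≤ N i := fun i => by
    calc (N i : ℝ)^((2:ℝ)/3) ≤ (N i : ℝ)^(1:ℝ) :=
          Real.rpow_le_rpow_of_exponent_le (hN1 i) (by norm_num)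
      _ = _ := Real.rpow_one _
  have hpw0 : ∀ i, 0 ≤ (N i : ℝ)^((2:ℝ)/3) := fun i => Real.rpow_nonneg (hNpos i).le _
  have est : ∀ i, c < (a i : ℝ) / N i → c < (b i : ℝ) / N i → (36:ℝ) ≤ N i → ∀ j : ℕ,
      (j+1)^2 ≤ a i → (j+1)^2 ≤ b i →
      |(N i : ℝ)^((2:ℝ)/3) * (t i j - m i j) - q i j| ≤
        C1 * ((j:ℝ)+1)^(6*k) * ((N i : ℝ)^((2:ℝ)/3) / N i) * (m i j + q i j) := by
    intro i hca hcb hN3 j hja hjb
    have hjn : j < n0 i := by
      have h2 : j + 1 ≤ (j+1)^2 := Nat.le_self_pow two_ne_zero _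
      have h3 := hab' i
      omega
    have h1 := hU (a i) (b i) (n i) j (ha i) (ha2 i) (hb i) (by
        have := hab' i
        have := hnn i
        omega)
      (by rw [← hNr i]; exact ((lt_div_iff₀ (hNpos i)).1 hca).le)
      (by rw [← hNr i]; exact ((lt_div_iff₀ (hNpos i)).1 hcb).le) (by
        have := hN4 i
        have := hN2 i
        omega) hja hjb
    have ht : t i j = ((cd (a i) (b i) j * mj (N i) j : ℚ) : ℝ) := if_pos hjn
    rw [← hNr i, ← hN2 i, ← ht] at h1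
    have h2 : (N i : ℝ)^((2:ℝ)/3) * (t i j - m i j) - q i j =
        (N i : ℝ)^((2:ℝ)/3) * (t i j - (m i j + (N i : ℝ)^(-(2:ℝ)/3) * q i j)) := by
      linear_combination (q i j) * (hsqrt i)
    rw [h2, abs_mul, abs_of_nonneg (hpw0 i)]
    have h3 : m i j + (N i : ℝ)^(-(2:ℝ)/3) * q i j ≤ m i j + q i j := by
      have := mul_le_mul_of_nonneg_right (hneg1 i) (hq0 i j)
      linarith
    calc (N i : ℝ)^((2:ℝ)/3) * |t i j - (m i j + (N i : ℝ)^(-(2:ℝ)/3) * q i j)|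
        ≤ (N i : ℝ)^((2:ℝ)/3) * (C1 * ((j:ℝ)+1)^(6*k) / N i *
            (m i j + (N i : ℝ)^(-(2:ℝ)/3) * q i j)) := mul_le_mul_of_nonneg_left h1 (hpw0 i)
      _ ≤ (N i : ℝ)^((2:ℝ)/3) * (C1 * ((j:ℝ)+1)^(6*k) / N i * (m i j + q i j)) := by
          apply mul_le_mul_of_nonneg_left _ (hpw0 i)
          apply mul_le_mul_of_nonneg_left h3
          have := hNpos i
          positivity
      _ = _ := by ring
  -- the sums
  have hxy : ∀ i, (a i : ℝ) / N i + (b i : ℝ) / N i < 1 := fun i => by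
    rw [← add_div, div_lt_one (hNpos i)]
    exact_mod_cast habN i
  have hmS : ∀ i, HasSum (m i) (2 * Gk ((a i : ℝ) / N i) ((b i : ℝ) / N i)) :=
    fun i => mainK_sum hF4 (div_pos (ha0 i) (hNpos i)) (div_pos (hb0 i) (hNpos i)) (hxy i)
  -- geometric bounds
  set Cm : ℝ := 2 * Gk ρ' σ' with hCm
  have hs1 := sum_c1 hc1 hρ'0 hσ'0 hρσ'
  have hs2 := sum_c2 hc2 hρ'0 hσ'0 hρσ'
  set D1 : ℝ := (1 - x1 (ρ'^2) (σ'^2))^((1:ℝ)/3) * (x2 (ρ'^2) (σ'^2))^((2:ℝ)/3) /
    (x2 (ρ'^2) (σ'^2) - x1 (ρ'^2) (σ'^2)) with hD1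
  set D2 : ℝ := 1/3 * x1 (ρ'^2) (σ'^2) * (x2 (ρ'^2) (σ'^2))^((1:ℝ)/3) *
      (1 - x1 (ρ'^2) (σ'^2))^(-(1:ℝ)/3) / (x2 (ρ'^2) (σ'^2) - x1 (ρ'^2) (σ'^2)) with hD2
  have hcM := cM_pos
  have hcK := cK_pos
  have hD10 : 0 ≤ D1 := hs1.nonneg fun l => by
    rw [c1_gp]; exact gp_nonneg w1_nonneg (by positivity) (by positivity) l
  have hD20 : 0 ≤ D2 := hs2.nonneg fun l => by
    rw [c2_gp]; exact gp_nonneg w2_nonneg (by positivity) (by positivity) l
  set Cq1 : ℝ := (2:ℝ)^((2:ℝ)/3) * cM * (D1 + 3 * (1/c)^((2:ℝ)/3) * D2) with hCq1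
  set Cq2 : ℝ := (2:ℝ)^((2:ℝ)/3) * cM * (3 / (cK * c^((2:ℝ)/3))) * D1 with hCq2
  set Cq : ℝ := Cq1 + Cq2 with hCq
  have hmb : ∀ i, (a i : ℝ) / N i < ρ + ε → (b i : ℝ) / N i < σ + ε → ∀ j, m i j ≤ r^j * Cm := by
    intro i h1 h2 j
    have h3 := mainK_le j (x := (a i : ℝ) / N i) (y := (b i : ℝ) / N i) (x' := ρ') (y' := σ')
      (s := r) (hx0 i) (hy0 i) hr0.le hr1.le
      (by rw [hrρ]; exact h1.le) (by rw [hrσ]; exact h2.le) hσ'0.le
    have h4 := le_hasSum (mainK_sum hF4 hρ'0 hσ'0 hρσ') j fun l _ => mainK_nonneg l hρ'0.le hσ'0.le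
    exact h3.trans (mul_le_mul_of_nonneg_left h4 (by positivity))
  have hCm0 : 0 ≤ Cm := (mainK_sum hF4 hρ'0 hσ'0 hρσ').nonneg fun l => mainK_nonneg l hρ'0.le hσ'0.le
  have hCq10 : 0 ≤ Cq1 := by positivity
  have hCq20 : 0 ≤ Cq2 := by positivity
  have hCq0 : 0 ≤ Cq := by positivity
  have hqb : ∀ i, (a i : ℝ) / N i < ρ + ε → (b i : ℝ) / N i < σ + ε → c < (a i : ℝ) / N i → ∀ j,
      q i j ≤ ((j:ℝ)+1) * (r^j * Cq) := by
    intro i h1 h2 h0 j
    have hj1 : (1:ℝ) ≤ (j:ℝ) + 1 := by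
      have : (0:ℝ) ≤ j := Nat.cast_nonneg j
      linarith
    have hy1 : (b i : ℝ) / N i ≤ 1 := by linarith [hxy i, hx0 i]
    have h3 := corrK_le j (x := (a i : ℝ) / N i) (y := (b i : ℝ) / N i) (x' := ρ') (y' := σ')
      (s := r) hc0 h0.le (hy0 i) hy1 hr0.le hr1.le
      (by rw [hrρ]; exact h1.le) (by rw [hrσ]; exact h2.le)
    have h4 := le_hasSum hs1 j fun l _ => by
      rw [c1_gp]; exact gp_nonneg w1_nonneg (by positivity) (by positivity) l
    have h4' := le_hasSum hs2 j fun l _ => by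
      rw [c2_gp]; exact gp_nonneg w2_nonneg (by positivity) (by positivity) l
    have h5 := restK_le j (x := (a i : ℝ) / N i) (y := (b i : ℝ) / N i) (x' := ρ') (y' := σ')
      (s := r) hc0 h0.le (hy0 i) hr0.le hr1.le
      (by rw [hrρ]; exact h1.le) (by rw [hrσ]; exact h2.le)
    have g1 : corB c j ρ' σ' ≤ Cq1 := by
      unfold corB
      rw [hCq1]
      apply mul_le_mul_of_nonneg_left _ (by positivity)
      exact add_le_add h4 (mul_le_mul_of_nonneg_left h4' (by positivity))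
    have g2 : resB c j ρ' σ' ≤ Cq2 := by
      unfold resB
      rw [hCq2]
      exact mul_le_mul_of_nonneg_left h4 (by positivity)
    have h7 : corrK j ((a i : ℝ) / N i) ((b i : ℝ) / N i) ≤ ((j:ℝ)+1) * (r^j * Cq1) := by
      calc _ ≤ r^j * corB c j ρ' σ' := h3
        _ ≤ r^j * Cq1 := mul_le_mul_of_nonneg_left g1 (by positivity)
        _ = 1 * (r^j * Cq1) := (one_mul _).symm
        _ ≤ _ := mul_le_mul_of_nonneg_right hj1 (by positivity)
    have h8 : (N i : ℝ)^(-(2:ℝ)/3) * restK j ((a i : ℝ) / N i) ((b i : ℝ) / N i) ≤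
        ((j:ℝ)+1) * (r^j * Cq2) := by
      calc _ ≤ 1 * restK j ((a i : ℝ) / N i) ((b i : ℝ) / N i) :=
            mul_le_mul_of_nonneg_right (hneg1 i) (restK_nonneg j (hx0 i))
        _ = restK j ((a i : ℝ) / N i) ((b i : ℝ) / N i) := one_mul _
        _ ≤ ((j:ℝ)+1) * (r^j * resB c j ρ' σ') := h5
        _ ≤ _ := by
            apply mul_le_mul_of_nonneg_left _ (by linarith)
            exact mul_le_mul_of_nonneg_left g2 (by positivity)
    calc q i j ≤ ((j:ℝ)+1) * (r^j * Cq1) + ((j:ℝ)+1) * (r^j * Cq2) := add_le_add h7 h8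
      _ = _ := by rw [hCq]; ring
  -- termwise limits
  have hnegl : Tendsto (fun i => (N i : ℝ)^(-(2:ℝ)/3)) atTop (𝓝 0) := by
    have h1 : Tendsto (fun i => (N i : ℝ)^(-((2:ℝ)/3))) atTop (𝓝 0) :=
      (tendsto_rpow_neg_atTop (by norm_num)).comp hNt'
    refine h1.congr fun i => ?_
    norm_num
  have hlimq : ∀ j, Tendsto (fun i => q i j) atTop (𝓝 (corrK j ρ σ)) := fun j => by
    have h1 := (corrK_lim j hρ hla hlb).add (hnegl.mul (restK_lim j hρ hla hlb))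
    rw [zero_mul, add_zero] at h1
    exact h1
  have hlimm : ∀ j, Tendsto (fun i => m i j) atTop (𝓝 (mainK j ρ σ)) := fun j =>
    mainK_lim j hla hlb
  have hpow0 : Tendsto (fun i => (N i : ℝ)^((2:ℝ)/3) / N i) atTop (𝓝 0) := by
    have h1 : Tendsto (fun i => (N i : ℝ)^(-((1:ℝ)/3))) atTop (𝓝 0) :=
      (tendsto_rpow_neg_atTop (by norm_num)).comp hNt'
    refine h1.congr fun i => ?_
    have h2 : (N i : ℝ)^(-((1:ℝ)/3)) = (N i : ℝ)^((2:ℝ)/3 - 1) := by norm_num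
    rw [h2, Real.rpow_sub (hNpos i), Real.rpow_one]
  have haj : ∀ j : ℕ, ∀ᶠ i in atTop, (j+1)^2 ≤ a i ∧ (j+1)^2 ≤ b i := by
    intro j
    filter_upwards [ev, hNt'.eventually_ge_atTop ((((j+1)^2 : ℕ) : ℝ) / c)] with i hi hi2
    obtain ⟨-, -, q3, q4, -, -⟩ := hi
    rw [lt_div_iff₀ (hNpos i)] at q3 q4
    rw [div_le_iff₀ hc0] at hi2
    have h1 : (((j+1)^2 : ℕ) : ℝ) ≤ a i := by linarith
    have h2 : (((j+1)^2 : ℕ) : ℝ) ≤ b i := by linarith
    exact ⟨by exact_mod_cast h1, by exact_mod_cast h2⟩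
  have hterm : ∀ j, Tendsto (fun i => (N i : ℝ)^((2:ℝ)/3) * (t i j - m i j)) atTop
      (𝓝 (corrK j ρ σ)) := by
    intro j
    have h1 : Tendsto (fun i => (N i : ℝ)^((2:ℝ)/3) * (t i j - m i j) - q i j) atTop (𝓝 0) := by
      have h2 : Tendsto (fun i => C1 * ((j:ℝ)+1)^(6*k) * ((N i : ℝ)^((2:ℝ)/3) / N i) *
          (m i j + q i j)) atTop (𝓝 (C1 * ((j:ℝ)+1)^(6*k) * 0 *
            (mainK j ρ σ + corrK j ρ σ))) :=
        (hpow0.const_mul _).mul ((hlimm j).add (hlimq j))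
      rw [mul_zero, zero_mul] at h2
      refine squeeze_zero_norm' ?_ h2
      filter_upwards [ev, haj j] with i hi hi2
      rw [Real.norm_eq_abs]
      exact est i hi.2.2.1 hi.2.2.2.1 hi.2.2.2.2.1 j hi2.1 hi2.2
    have h3 := h1.add (hlimq j)
    rw [zero_add] at h3
    exact h3.congr fun i => by ring
  -- dominated convergence
  set K : ℕ := 6*k + 3 with hKK
  set Cb : ℝ := C1 * (Cm + Cq) + Cq + (2 + Cm) / c with hCb
  have hdc : Tendsto (fun i => ∑' j, (N i : ℝ)^((2:ℝ)/3) * (t i j - m i j)) atTop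
      (𝓝 (∑' j, corrK j ρ σ)) := by
    refine tendsto_tsum_of_dominated_convergence
      (bound := fun j => Cb * (((j:ℝ)+1)^K * r^j)) ?_ hterm ?_
    · apply Summable.mul_left
      have h1 := summable_pow_mul_geometric_of_norm_lt_one K (r := r)
        (by rw [Real.norm_of_nonneg hr0.le]; exact hr1)
      have h2 := ((summable_nat_add_iff 1).2 h1).mul_left r⁻¹
      refine h2.congr fun j => ?_
      push_cast
      rw [pow_succ r j]
      field_simp
    · filter_upwards [ev] with i hi j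
      obtain ⟨q1, q2, q3, q4, q5, q6⟩ := hi
      rw [Real.norm_eq_abs]
      have hm1 := hmb i q1 q2 j
      have hq1 := hqb i q1 q2 q3 j
      have ht1 := htr i q6 j
      have hrj : 0 < r^j := by positivity
      have hj1 : (1:ℝ) ≤ (j:ℝ) + 1 := by
        have : (0:ℝ) ≤ j := Nat.cast_nonneg j
        linarith
      have hK1 : ((j:ℝ)+1)^(6*k) * ((j:ℝ)+1) ≤ ((j:ℝ)+1)^K := by
        rw [← pow_succ]
        exact pow_le_pow_right₀ hj1 (by omega)
      have hK2 : ((j:ℝ)+1)^2 ≤ ((j:ℝ)+1)^K := pow_le_pow_right₀ hj1 (by omega)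
      have hK3 : ((j:ℝ)+1) ≤ ((j:ℝ)+1)^K := by
        calc ((j:ℝ)+1) = ((j:ℝ)+1)^1 := (pow_one _).symm
          _ ≤ _ := pow_le_pow_right₀ hj1 (by omega)
      have hcc : 0 ≤ (2 + Cm) / c := by positivity
      by_cases hcase : (j+1)^2 ≤ a i ∧ (j+1)^2 ≤ b i
      · have h1 := est i q3 q4 q5 j hcase.1 hcase.2
        have h2 : |(N i : ℝ)^((2:ℝ)/3) * (t i j - m i j)| ≤
            |(N i : ℝ)^((2:ℝ)/3) * (t i j - m i j) - q i j| + |q i j| := by
          have := abs_add_le ((N i : ℝ)^((2:ℝ)/3) * (t i j - m i j) - q i j) (q i j)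
          rwa [sub_add_cancel] at this
        rw [abs_of_nonneg (hq0 i j)] at h2
        have h3 : (N i : ℝ)^((2:ℝ)/3) / N i ≤ 1 := by
          rw [div_le_one (hNpos i)]
          exact hpw i
        have h4 : C1 * ((j:ℝ)+1)^(6*k) * ((N i : ℝ)^((2:ℝ)/3) / N i) * (m i j + q i j) ≤
            C1 * (((j:ℝ)+1)^K * (r^j * (Cm + Cq))) := by
          have h5 : m i j + q i j ≤ ((j:ℝ)+1) * (r^j * (Cm + Cq)) := by
            have h51 : m i j ≤ ((j:ℝ)+1) * (r^j * Cm) := by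
              calc m i j ≤ 1 * (r^j * Cm) := by rw [one_mul]; exact hm1
                _ ≤ _ := mul_le_mul_of_nonneg_right hj1 (by positivity)
            calc m i j + q i j ≤ ((j:ℝ)+1) * (r^j * Cm) + ((j:ℝ)+1) * (r^j * Cq) :=
                  add_le_add h51 hq1
              _ = _ := by ring
          have h6 : C1 * ((j:ℝ)+1)^(6*k) * ((N i : ℝ)^((2:ℝ)/3) / N i) ≤
              C1 * ((j:ℝ)+1)^(6*k) := by
            calc _ ≤ C1 * ((j:ℝ)+1)^(6*k) * 1 := mul_le_mul_of_nonneg_left h3 (by positivity)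
              _ = C1 * ((j:ℝ)+1)^(6*k) := mul_one _
          calc _ ≤ (C1 * ((j:ℝ)+1)^(6*k)) * (((j:ℝ)+1) * (r^j * (Cm + Cq))) :=
                mul_le_mul h6 h5 (add_nonneg (hm0 i j) (hq0 i j)) (by positivity)
            _ = C1 * ((((j:ℝ)+1)^(6*k) * ((j:ℝ)+1)) * (r^j * (Cm + Cq))) := by ring
            _ ≤ _ := by
              apply mul_le_mul_of_nonneg_left _ hC1
              exact mul_le_mul_of_nonneg_right hK1 (by positivity)
        have h5 : q i j ≤ Cq * (((j:ℝ)+1)^K * r^j) := by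
          calc q i j ≤ ((j:ℝ)+1) * (r^j * Cq) := hq1
            _ ≤ ((j:ℝ)+1)^K * (r^j * Cq) := mul_le_mul_of_nonneg_right hK3 (by positivity)
            _ = _ := by ring
        have h6 : 0 ≤ (2 + Cm) / c * (((j:ℝ)+1)^K * r^j) := by positivity
        have h7 : Cb * (((j:ℝ)+1)^K * r^j) = C1 * (((j:ℝ)+1)^K * (r^j * (Cm + Cq))) +
            Cq * (((j:ℝ)+1)^K * r^j) + (2 + Cm) / c * (((j:ℝ)+1)^K * r^j) := by
          rw [hCb]; ring
        rw [h7]
        linarith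
      · have h1 : c * N i ≤ ((j:ℝ)+1)^2 := by
          rw [lt_div_iff₀ (hNpos i)] at q3 q4
          rw [not_and_or, not_le, not_le] at hcase
          rcases hcase with h | h
          · have : ((a i : ℕ) : ℝ) ≤ (((j+1)^2 : ℕ) : ℝ) := by exact_mod_cast h.le
            push_cast at this
            linarith
          · have : ((b i : ℕ) : ℝ) ≤ (((j+1)^2 : ℕ) : ℝ) := by exact_mod_cast h.le
            push_cast at this
            linarith
        have h2 : (N i : ℝ)^((2:ℝ)/3) ≤ ((j:ℝ)+1)^K / c := by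
          rw [le_div_iff₀ hc0]
          have := mul_le_mul_of_nonneg_right (hpw i) hc0.le
          linarith
        have h3 : |t i j - m i j| ≤ r^j * (2 + Cm) := by
          rw [abs_le]
          have := ht0 i j
          have := hm0 i j
          constructor
          · nlinarith
          · nlinarith
        rw [abs_mul, abs_of_nonneg (hpw0 i)]
        have h4 : (N i : ℝ)^((2:ℝ)/3) * |t i j - m i j| ≤ ((j:ℝ)+1)^K / c * (r^j * (2 + Cm)) :=
          mul_le_mul h2 h3 (abs_nonneg _) (by positivity)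
        have h5 : 0 ≤ (C1 * (Cm + Cq) + Cq) * (((j:ℝ)+1)^K * r^j) := by positivity
        have h6 : Cb * (((j:ℝ)+1)^K * r^j) = (C1 * (Cm + Cq) + Cq) * (((j:ℝ)+1)^K * r^j) +
            ((j:ℝ)+1)^K / c * (r^j * (2 + Cm)) := by
          rw [hCb]; ring
        rw [h6]
        linarith
  rw [(corrK_sum hc1 hc2 hρ hσ hρσ).tsum_eq] at hdc
  have hts : ∀ i, ∑' j, (N i : ℝ)^((2:ℝ)/3) * (t i j - m i j) = (N i : ℝ)^((2:ℝ)/3) *
      (2 * ((FK (a i) (b i) (N i) : ℚ) : ℝ) - 2 * Gk ((a i : ℝ) / N i) ((b i : ℝ) / N i)) := by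
    intro i
    exact (((hsum i).sub (hmS i)).mul_left _).tsum_eq
  simp only [hts] at hdc
  have h5 := hdc.const_mul (1/2 : ℝ)
  rw [show 1/2 * (2 * Qk ρ σ) = Qk ρ σ by ring] at h5
  refine h5.congr fun i => ?_
  ring

theorem t_Rate3 (hc1 : S_c1) (hc2 : S_c2) (hd : S_dE) : S_Rate3 := by
  obtain ⟨k, hk⟩ := hd
  have h1 : SE (k + 3) := SE_mono (by omega) (show SE 3 from t_sE)
  have h2 : DE (k + 3) := DE_mono (by omega) (show DE k from hk)
  exact rate Pool.Agent.H965.K3.t3_F4' Pool.Agent.H965.K3.t3_pos Pool.Agent.H965.K3.t3_FKle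
    hc1 hc2 (by omega) h1 h2

end Pool.Agent.H966.N3
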