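import Pool.Agent.H966.N1.Rh
import Pool.Agent.H965.K3.J

/-!
The second order of Cardy's formula for the union of two walls (helper966): statements of the tasks
(nothing is proved here).
-/

set_option autoImplicit false

namespace Pool.Agent.H966.N3

open Pool.Agent.H988R2.Perc hiding X
open Pool.Agent.NH38.Step (cardy)
open Pool.Agent.NH38.Step.A2 (BB)
open Pool.Agent.NH38.Fork (x1 x2 rr rf cK cR sv FCross)
open Pool.Agent.H965.K3 (dv FK Cross3 CrossL)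
open Pool.Agent.H757R2.CardyLimit (gd)
open Filter Topology MeasureTheory

/-! ## TASK D: the coefficients of `dv` with error term -/

/-- `dv n` for even `n`: coefficients up to a relative error `O((l+1)^k / n)`, with the correction of
relative order `n^(-2/3)` -/
def S_dE : Prop := ∃ (k : ℕ) (C : ℝ), ∀ n l : ℕ, Even n → 2 ≤ n → (l+1)^2 ≤ n →
  |(((dv n).coeff l : ℚ) : ℝ) - ((n:ℝ)/2)^(2*l) * (1 / (rf (1/3) l * (Nat.factorial l : ℝ)) +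
    3 * (l:ℝ) / (cK * (n:ℝ)^((2:ℝ)/3)) / (rf (2/3) l * (Nat.factorial l : ℝ)))| ≤
    C * ((l:ℝ)+1)^k / n * (((n:ℝ)/2)^(2*l) / (rf (1/3) l * (Nat.factorial l : ℝ)))

/-! ## TASK C: two algebraic generating functions -/

/-- coefficients of Appell's function `F_4(1/3, 2/3; 1/3, 2/3; A, B)` -/
noncomputable def c1 (A B : ℝ) (m : ℕ) : ℝ := ∑ i ∈ Finset.range (m+1),
  rf (1/3) m * rf (2/3) m / (rf (2/3) i * (Nat.factorial i : ℝ) * (rf (1/3) (m-i) *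
    (Nat.factorial (m-i) : ℝ))) * B^i * A^(m-i)

/-- coefficients of `A ∂/∂A F_4(1/3, 2/3; 2/3, 4/3; A, B)` -/
noncomputable def c2 (A B : ℝ) (m : ℕ) : ℝ := ∑ i ∈ Finset.range (m+1),
  ((m - i : ℕ) : ℝ) * (rf (1/3) m * rf (2/3) m / (rf (4/3) i * (Nat.factorial i : ℝ) *
    (rf (2/3) (m-i) * (Nat.factorial (m-i) : ℝ)))) * B^i * A^(m-i)

/-- coefficients of `A ∂/∂A F_4(1/3, 2/3; 2/3, 2/3; A, B)` -/
noncomputable def c3 (A B : ℝ) (m : ℕ) : ℝ := ∑ i ∈ Finset.range (m+1),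
  ((m - i : ℕ) : ℝ) * (rf (1/3) m * rf (2/3) m / (rf (2/3) i * (Nat.factorial i : ℝ) *
    (rf (2/3) (m-i) * (Nat.factorial (m-i) : ℝ)))) * B^i * A^(m-i)

def S_c1 : Prop := ∀ A B : ℝ, 0 < A → 0 < B → Real.sqrt A + Real.sqrt B < 1 →
  HasSum (c1 A B) ((1 - x1 A B)^((1:ℝ)/3) * (x2 A B)^((2:ℝ)/3) / (x2 A B - x1 A B))

def S_c2 : Prop := ∀ A B : ℝ, 0 < A → 0 < B → Real.sqrt A + Real.sqrt B < 1 →
  HasSum (c2 A B) (1/3 * x1 A B * (x2 A B)^((1:ℝ)/3) * (1 - x1 A B)^(-(1:ℝ)/3) /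
    (x2 A B - x1 A B))

/-! ## TASK R: the sharp rate -/

/-- the limit function -/
noncomputable def Gk (x y : ℝ) : ℝ := cardy ((1 - x2 (x^2) (y^2)) / (1 - x1 (x^2) (y^2)))

/-- the second order -/
noncomputable def Qk (x y : ℝ) : ℝ :=
  cR * (((1 - x1 (x^2) (y^2))^((1:ℝ)/3) * (x2 (x^2) (y^2))^((2:ℝ)/3) +
    (1 - x2 (x^2) (y^2))^((1:ℝ)/3) * (x1 (x^2) (y^2))^((2:ℝ)/3)) /
      (x2 (x^2) (y^2) - x1 (x^2) (y^2)))

/-- the sharp rate, `a` even, `b` odd, `N` odd -/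
def S_Rate3 : Prop := ∀ (a b N : ℕ → ℕ) (ρ σ : ℝ), 0 < ρ → 0 < σ → ρ + σ < 1 →
  (∀ i, Even (a i)) → (∀ i, 2 ≤ a i) → (∀ i, Odd (b i)) → (∀ i, Odd (N i)) →
  (∀ i, a i + b i < N i) →
  Tendsto N atTop atTop → Tendsto (fun i => (a i : ℝ) / N i) atTop (𝓝 ρ) →
  Tendsto (fun i => (b i : ℝ) / N i) atTop (𝓝 σ) →
  Tendsto (fun i => (N i : ℝ)^((2:ℝ)/3) * (((FK (a i) (b i) (N i) : ℚ) : ℝ) -
    Gk ((a i : ℝ) / N i) ((b i : ℝ) / N i))) atTop (𝓝 (Qk ρ σ))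

/-! ## TASK P: all widths of the arms, even width of the slit -/

/-- the sharp rate for the union of the two walls of the left arm -/
def S_RateP3 : Prop := ∀ (α γ β K : ℝ), 0 < α → 0 < γ → 0 < β → ∀ (δ : ℕ → ℝ) (a m b : ℕ → ℕ),
  (∀ n, 0 < δ n) → Tendsto δ atTop (𝓝 0) → (∀ n, Even (m n)) →
  (∀ n, |δ n * a n - α| ≤ K * δ n) →
  (∀ n, |δ n * m n - γ| ≤ K * δ n) → (∀ n, |δ n * b n - β| ≤ K * δ n) →
  Tendsto (fun n => (perc.real (Cross3 (a n) (m n) (b n)) -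
    Gk (α/(α+γ+β)) (β/(α+γ+β))) / (δ n)^((2:ℝ)/3)) atTop
    (𝓝 (Qk (α/(α+γ+β)) (β/(α+γ+β)) * (α+γ+β)^(-(2:ℝ)/3)))

def S_P : Prop := S_Rate3 → S_RateP3

/-- the sharp rate for the left wall (mirror image of `NH38.Fork.S_RateP`) -/
def S_RateL : Prop := ∀ (α γ β K : ℝ), 0 < α → 0 < γ → 0 < β → ∀ (δ : ℕ → ℝ) (a m b : ℕ → ℕ),
  (∀ n, 0 < δ n) → Tendsto δ atTop (𝓝 0) → (∀ n, Even (m n)) →
  (∀ n, |δ n * a n - α| ≤ K * δ n) →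
  (∀ n, |δ n * m n - γ| ≤ K * δ n) → (∀ n, |δ n * b n - β| ≤ K * δ n) →
  Tendsto (fun n => (perc.real (CrossL (a n) (m n) (b n)) -
    cardy (1 - x2 ((α/(α+γ+β))^2) ((β/(α+γ+β))^2))) / (δ n)^((2:ℝ)/3)) atTop
    (𝓝 (cR * (x2 ((α/(α+γ+β))^2) ((β/(α+γ+β))^2) - x1 ((α/(α+γ+β))^2) ((β/(α+γ+β))^2))^(-(1:ℝ)/3) *
      (α+γ+β)^(-(2:ℝ)/3)))

/-! ## TASK K: the constants and the displaced corners -/

/-- `E`, `E'`: the displacements of the two corners in the half-plane, see `N1.lam_div` -/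
def S_K1 : Prop := ∀ S x y : ℝ, 0 < S → 0 < x → x < y → y < 1 →
  gd ((1 - y) / (1 - x)) / BB *
    (((1 - x) * (cR * BB * S^(-(2:ℝ)/3) * (y - x)^(-(1:ℝ)/3) * (y * (1 - y))^((2:ℝ)/3)) +
      (1 - y) * (cR * BB * S^(-(2:ℝ)/3) * (y - x)^(-(1:ℝ)/3) * (x * (1 - x))^((2:ℝ)/3))) /
      (1 - x)^2) =
  cR * (((1 - x)^((1:ℝ)/3) * y^((2:ℝ)/3) + (1 - y)^((1:ℝ)/3) * x^((2:ℝ)/3)) / (y - x)) *
    S^(-(2:ℝ)/3)

/-- the cross-ratio of the displaced corners -/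
def S_K2 : Prop := ∀ (x y E E' : ℝ), 0 < x → x < y → y < 1 → ∀ (e t t' : ℕ → ℝ),
  (∀ n, 0 < e n) → Tendsto e atTop (𝓝 0) → (∀ n, t n ∈ Set.Ioo x y) → (∀ n, t' n ∈ Set.Ioo x y) →
  Tendsto (fun n => (t n - x) / e n) atTop (𝓝 E) →
  Tendsto (fun n => (y - t' n) / e n) atTop (𝓝 E') →
  Tendsto (fun n => ((1 - t' n) / (1 - t n) - (1 - y) / (1 - x)) / e n) atTop
    (𝓝 (((1 - x) * E' + (1 - y) * E) / (1 - x)^2))

end Pool.Agent.H966.N3
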